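import Pool.Agent.Helper40.Gpc.Gro

/-!
Complex conjugation for the rational structure, and the type decomposition of multilinear forms.
-/

open scoped ComplexConjugate

namespace Pool.Agent.Helper40.Gpc

open Module Pool.Agent.Helper7

variable {κ : Type} [Fintype κ] [DecidableEq κ] {ϖ : ℂ} (P : PData κ ϖ)

/-- complex conjugation for the rational structure -/
noncomputable def cB (v : κ → ℂ) : κ → ℂ := ∑ i, conj (P.bB.repr v i) • P.bB i

lemma cB_add (u v : κ → ℂ) : cB P (u + v) = cB P u + cB P v := by
  simp only [cB, ← Finset.sum_add_distrib, ← add_smul]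
  refine Finset.sum_congr rfl fun i _ => ?_
  rw [map_add, Finsupp.add_apply, map_add]

lemma cB_smul (c : ℂ) (v : κ → ℂ) : cB P (c • v) = conj c • cB P v := by
  simp only [cB, Finset.smul_sum, smul_smul]
  refine Finset.sum_congr rfl fun i _ => ?_
  rw [map_smul, Finsupp.smul_apply, smul_eq_mul, map_mul]

lemma cB_zero : cB P 0 = 0 := by
  have := cB_smul P 0 0
  rwa [map_zero, zero_smul, zero_smul] at this

lemma cB_neg (v : κ → ℂ) : cB P (-v) = - cB P v := by
  rw [← neg_one_smul ℂ, cB_smul, map_neg, map_one, neg_one_smul]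

lemma cB_sum {X : Type*} (s : Finset X) (f : X → (κ → ℂ)) :
    cB P (∑ x ∈ s, f x) = ∑ x ∈ s, cB P (f x) := by
  classical
  induction s using Finset.induction_on with
  | empty => rw [Finset.sum_empty, Finset.sum_empty, cB_zero]
  | insert a s ha ih => rw [Finset.sum_insert ha, Finset.sum_insert ha, cB_add, ih]

lemma cB_rat (v : κ → ℂ) (hv : v ∈ P.Q) : cB P v = v := by
  conv_rhs => rw [← P.bB.sum_repr v]
  refine Finset.sum_congr rfl fun i _ => ?_
  obtain ⟨q, hq⟩ := P.repr_rat v hv i
  rw [hq, map_ratCast]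

lemma cB_cB (v : κ → ℂ) : cB P (cB P v) = v := by
  have h1 : cB P v = ∑ i, conj (P.bB.repr v i) • P.bB i := rfl
  rw [h1, cB_sum]
  conv_rhs => rw [← P.bB.sum_repr v]
  refine Finset.sum_congr rfl fun i _ => ?_
  rw [cB_smul, cB_rat P _ (P.basis_mem i), Complex.conj_conj]

lemma cB_real (v : κ → ℂ) (hv : v ∈ Submodule.span ℝ (P.Q : Set (κ → ℂ))) : cB P v = v := by
  induction hv using Submodule.span_induction with
  | mem v hv => exact cB_rat P v hv
  | zero => exact cB_zero P
  | add u v _ _ hu hv => rw [cB_add, hu, hv]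
  | smul r v _ hv =>
    have h4 : r • v = (r : ℂ) • v := by
      funext j; simp
    rw [h4, cB_smul, hv, Complex.conj_ofReal]

lemma repr_cB (v : κ → ℂ) (i : P.ι) : P.bB.repr (cB P v) i = conj (P.bB.repr v i) := by
  classical
  rw [cB, map_sum, Finsupp.finsetSum_apply, Finset.sum_eq_single i]
  · rw [map_smul, Basis.repr_self, Finsupp.smul_single, Finsupp.single_eq_same, smul_eq_mul,
      mul_one]
  · intro j _ hj
    rw [map_smul, Basis.repr_self, Finsupp.smul_single, Finsupp.single_eq_of_ne (Ne.symm hj)]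
  · intro h; exact absurd (Finset.mem_univ _) h

lemma expand_basis {k : ℕ} (β : TForm κ k) (v : Fin (2 * k) → (κ → ℂ)) :
    β v = ∑ s : Fin (2 * k) → P.ι, (∏ r, P.bB.repr (v r) (s r)) * β (fun r => P.bB (s r)) := by
  classical
  have h1 : v = fun r => ∑ i, P.bB.repr (v r) i • P.bB i := by
    funext r
    exact (P.bB.sum_repr (v r)).symm
  conv_lhs => rw [h1]
  rw [β.map_sum]
  refine Finset.sum_congr rfl fun s _ => ?_
  rw [β.map_smul_univ, smul_eq_mul]

/-- rational forms and complex conjugation -/
lemma conj_form (hϖ' : conj ϖ = -ϖ) {k : ℕ} (β : TForm κ k)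
    (hβ : ∀ v : Fin (2 * k) → (κ → ℂ), (∀ r, v r ∈ P.Q) → ∃ q : ℚ, β v = ϖ ^ k * q)
    (v : Fin (2 * k) → (κ → ℂ)) : β (fun r => cB P (v r)) = (-1) ^ k * conj (β v) := by
  rw [expand_basis P β v, expand_basis P β (fun r => cB P (v r)), map_sum, Finset.mul_sum]
  refine Finset.sum_congr rfl fun s _ => ?_
  obtain ⟨q, hq⟩ := hβ (fun r => P.bB (s r)) (fun r => P.basis_mem (s r))
  rw [hq, map_mul, map_mul, map_pow, hϖ', map_prod, map_ratCast]
  simp only [repr_cB]
  rw [neg_pow ϖ k]
  have h2 : ((-1 : ℂ) ^ k) * (-1) ^ k = 1 := by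
    rw [← mul_pow]; norm_num
  linear_combination (-(∏ x, conj (P.bB.repr (v x) (s x))) * (ϖ ^ k * q)) * h2

section types

variable (h : Module.End ℂ (κ → ℂ))

omit [Fintype κ] [DecidableEq κ] in
lemma act_hom {k : ℕ} (β : TForm κ k) (w : Fin (2 * k) → (κ → ℂ)) (ε : Fin (2 * k) → ℂ)
    (hw : ∀ r, h (w r) = ε r • w r) : actForm h β w = (∑ r, ε r) * β w := by
  rw [actForm_apply, Finset.sum_mul]
  refine Finset.sum_congr rfl fun r _ => ?_
  rw [hw, MultilinearMap.map_update_smul, Function.update_eq_self, smul_eq_mul]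

/-- the two projections attached to an involution -/
noncomputable def pr (b : Bool) (v : κ → ℂ) : κ → ℂ :=
  match b with
  | true => (1 / 2 : ℂ) • (v + h v)
  | false => (1 / 2 : ℂ) • (v - h v)

omit [Fintype κ] [DecidableEq κ] in
lemma pr_sum (v : κ → ℂ) : ∑ b, pr h b v = v := by
  rw [Fintype.sum_bool]
  simp only [pr]
  rw [← smul_add]
  have h1 : v + h v + (v - h v) = (2 : ℂ) • v := by
    rw [two_smul]; abel
  rw [h1, smul_smul]
  norm_num

omit [Fintype κ] [DecidableEq κ] in
lemma pr_true (hh : ∀ v, h (h v) = v) (v : κ → ℂ) : h (pr h true v) = pr h true v := by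
  simp only [pr]
  rw [map_smul, map_add, hh, add_comm]

omit [Fintype κ] [DecidableEq κ] in
lemma pr_false (hh : ∀ v, h (h v) = v) (v : κ → ℂ) : h (pr h false v) = - pr h false v := by
  simp only [pr]
  rw [map_smul, map_sub, hh, ← smul_neg, neg_sub]

omit [Fintype κ] [DecidableEq κ] in
lemma pr_true_of_minus (v : κ → ℂ) (hv : h v = -v) : pr h true v = 0 := by
  simp only [pr]
  rw [hv, add_neg_cancel, smul_zero]

omit [Fintype κ] [DecidableEq κ] in
lemma expand_pr {k : ℕ} (β : TForm κ k) (v : Fin (2 * k) → (κ → ℂ)) :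
    β v = ∑ s : Fin (2 * k) → Bool, β (fun r => pr h (s r) (v r)) := by
  classical
  have h1 : v = fun r => ∑ b, pr h b (v r) := by
    funext r
    exact (pr_sum h (v r)).symm
  conv_lhs => rw [h1]
  rw [β.map_sum]

/-- `β` vanishes when more than half of its arguments are in the minus part -/
def InF {k : ℕ} (β : TForm κ k) : Prop :=
  ∀ v : Fin (2 * k) → (κ → ℂ), (∃ S : Finset (Fin (2 * k)), k < S.card ∧
    ∀ r ∈ S, h (v r) = - v r) → β v = 0

omit [Fintype κ] [DecidableEq κ] in
lemma act_pr (hh : ∀ v, h (h v) = v) {k : ℕ} (β : TForm κ k) (v : Fin (2 * k) → (κ → ℂ))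
    (s : Fin (2 * k) → Bool) : actForm h β (fun r => pr h (s r) (v r)) =
      ((2 * k : ℂ) - 2 * ((Finset.univ.filter fun r => s r = false).card : ℂ)) *
        β (fun r => pr h (s r) (v r)) := by
  rw [act_hom h β _ (fun r => if s r = false then -1 else 1)]
  · congr 1
    have h1 : ∀ r, (if s r = false then (-1 : ℂ) else 1) = 1 - 2 * (if s r = false then 1 else 0) := by
      intro r
      split_ifs <;> norm_num
    simp only [h1, Finset.sum_sub_distrib, ← Finset.mul_sum, Finset.sum_const, Finset.card_univ,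
      Fintype.card_fin, Finset.sum_boole]
    simp
  · intro r
    rcases hs : s r with _ | _
    · simp only [if_true]
      rw [pr_false h hh, neg_one_smul]
    · simp only [Bool.true_eq_false, if_false]
      rw [pr_true h hh, one_smul]

omit [Fintype κ] [DecidableEq κ] in
/-- invariant forms are of middle type -/
lemma inF_of_act (hh : ∀ v, h (h v) = v) {k : ℕ} (β : TForm κ k) (hβ : actForm h β = 0) :
    InF h β := by
  rintro v ⟨S, hS, hv⟩
  rw [expand_pr h β v]
  refine Finset.sum_eq_zero fun s _ => ?_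
  by_cases hs : ∀ r ∈ S, s r = false
  · have h1 := act_pr h hh β v s
    rw [hβ] at h1
    have h2 : S ⊆ Finset.univ.filter fun r => s r = false := by
      intro r hr
      rw [Finset.mem_filter]
      exact ⟨Finset.mem_univ r, hs r hr⟩
    have h3 := Finset.card_le_card h2
    have h4 : (2 * k : ℂ) - 2 * ((Finset.univ.filter fun r => s r = false).card : ℂ) ≠ 0 := by
      intro h5
      have h6 : ((2 * k : ℕ) : ℂ) = ((2 * (Finset.univ.filter fun r => s r = false).card : ℕ) : ℂ) := by
        push_cast
        linear_combination h5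
      have h7 := Nat.cast_injective h6
      omega
    exact (mul_eq_zero.mp h1.symm).resolve_left h4
  · push Not at hs
    obtain ⟨r, hr, hsr⟩ := hs
    apply β.map_coord_zero r
    have h1 : s r = true := by
      rcases h : s r with _ | _
      · exact absurd h hsr
      · rfl
    rw [h1]
    exact pr_true_of_minus h _ (hv r hr)

/-- rational forms of the middle step of the filtration are invariant -/
lemma act_of_inF (hϖ' : conj ϖ = -ϖ) (hh : ∀ v, h (h v) = v)
    (hc : ∀ v, h (cB P v) = - cB P (h v)) {k : ℕ} (β : TForm κ k)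
    (hβ : ∀ v : Fin (2 * k) → (κ → ℂ), (∀ r, v r ∈ P.Q) → ∃ q : ℚ, β v = ϖ ^ k * q)
    (hF : InF h β) : actForm h β = 0 := by
  apply MultilinearMap.ext
  intro v
  rw [_root_.zero_apply, expand_pr h (actForm h β) v]
  refine Finset.sum_eq_zero fun s _ => ?_
  rw [act_pr h hh]
  set N := (Finset.univ.filter fun r => s r = false) with hN
  rcases lt_trichotomy N.card k with hlt | heq | hgt
  · -- more than `k` arguments in the plus part
    have h1 : β (fun r => cB P (pr h (s r) (v r))) = 0 := by
      apply hF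
      refine ⟨Finset.univ.filter fun r => s r = true, ?_, ?_⟩
      · have h2 := Finset.card_filter_add_card_filter_not (s := (Finset.univ : Finset (Fin (2 * k))))
          (fun r => s r = false)
        simp only [Bool.not_eq_false] at h2
        rw [Finset.card_univ, Fintype.card_fin, ← hN] at h2
        omega
      · intro r hr
        have h2 : s r = true := (Finset.mem_filter.mp hr).2
        rw [h2, hc, pr_true h hh]
    have h2 := conj_form P hϖ' β hβ (fun r => cB P (pr h (s r) (v r)))
    simp only [cB_cB] at h2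
    rw [h2, h1, map_zero, mul_zero, mul_zero]
  · rw [heq, sub_self, zero_mul]
  · rw [hF (fun r => pr h (s r) (v r)) ⟨N, hgt, fun r hr => by
      have h2 : s r = false := (Finset.mem_filter.mp hr).2
      rw [h2, pr_false h hh]⟩, mul_zero]

end types

end Pool.Agent.Helper40.Gpc
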