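import Pool.Agent.Helper7.Bridge3
import Pool.Agent.Helper40.Gpc.Conj

/-!
The operator which is `1` on `V^(-1,0)` and `-1` on `V^(0,-1)`.
-/

open scoped ComplexConjugate

namespace Pool.Agent.Helper40.Gpc

open Module Pool.Agent.Helper7 Pool.Agent.GPC

variable (A : AbVar)

/-- the Hodge operator -/
noncomputable def hop : Module.End ℂ A.H1 where
  toFun v := Sum.elim (fun a => v (.inl a))
    (fun a => 2 * bilForm A.q (Pi.single a 1) (A.zz v) - v (.inr a))
  map_add' u v := by
    funext s
    rcases s with a | a
    · rfl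
    · change 2 * bilForm A.q (Pi.single a 1) (A.zz (u + v)) - (u (.inr a) + v (.inr a)) =
        (2 * bilForm A.q (Pi.single a 1) (A.zz u) - u (.inr a)) +
        (2 * bilForm A.q (Pi.single a 1) (A.zz v) - v (.inr a))
      rw [map_add, bilForm_add_right]
      ring
  map_smul' c v := by
    funext s
    rcases s with a | a
    · rfl
    · change 2 * bilForm A.q (Pi.single a 1) (A.zz (c • v)) - c * v (.inr a) =
        c * (2 * bilForm A.q (Pi.single a 1) (A.zz v) - v (.inr a))
      rw [map_smul, bilForm_smul_right]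
      ring

lemma hop_inl (v : A.H1) (a : Fin A.g) : hop A v (.inl a) = v (.inl a) := rfl

lemma hop_inr (v : A.H1) (a : Fin A.g) : hop A v (.inr a) =
    2 * bilForm A.q (Pi.single a 1) (A.zz v) - v (.inr a) := rfl

lemma hop_hop (v : A.H1) : hop A (hop A v) = v := by
  funext s
  rcases s with a | a
  · rfl
  · rw [hop_inr, hop_inr]
    have : A.zz (hop A v) = A.zz v := rfl
    rw [this]
    ring

lemma hop_minus_iff (v : A.H1) : hop A v = -v ↔ A.IsFil v := by
  constructor
  · intro h a
    have h1 := congrFun h (.inl a)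
    rw [hop_inl, Pi.neg_apply] at h1
    have h2 : (2 : ℂ) * v (.inl a) = 0 := by linear_combination h1
    exact (mul_eq_zero.mp h2).resolve_left two_ne_zero
  · intro h
    have hz : A.zz v = 0 := by
      funext a
      exact h a
    funext s
    rcases s with a | a
    · rw [hop_inl, Pi.neg_apply, h a, neg_zero]
    · rw [hop_inr, Pi.neg_apply, hz]
      have h1 : bilForm A.q (Pi.single a 1) 0 = 0 := by simp [bilForm]
      rw [h1]
      ring

lemma hop_period (l : Fin A.g → ℂ) :
    hop A (A.period l) = (-Complex.I) • A.period (Complex.I • l) := by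
  have hI : Complex.I * Complex.I = -1 := Complex.I_mul_I
  funext s
  rcases s with a | a
  · rw [hop_inl, Pi.smul_apply, smul_eq_mul]
    change l a = -Complex.I * (Complex.I * l a)
    linear_combination (l a) * hI
  · rw [hop_inr, Pi.smul_apply, smul_eq_mul]
    change 2 * bilForm A.q (Pi.single a 1) l - A.eta l a = -Complex.I * A.eta (Complex.I • l) a
    rw [AbVar.eta, AbVar.eta, GPC.hermForm_smul_right, GPC.bilForm_smul_right, Complex.conj_I]
    linear_combination (-(Real.pi * hermForm A.H (Pi.single a 1) l) +
      bilForm A.q (Pi.single a 1) l) * hI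

lemma period_mem_span (l : Fin A.g → ℂ) :
    A.period l ∈ Submodule.span ℝ {u | A.IsBetti u} := by
  have hl : l ∈ Submodule.span ℝ (A.Λ : Set (Fin A.g → ℂ)) := by
    rw [A.spans]; trivial
  induction hl using Submodule.span_induction with
  | mem l hl =>
    exact Submodule.subset_span ⟨1, one_ne_zero, l, hl, by rw [Nat.cast_one, one_smul]⟩
  | zero => rw [period_zero]; exact Submodule.zero_mem _
  | add l m _ _ hl hm => rw [period_add]; exact Submodule.add_mem _ hl hm
  | smul r l _ hl => rw [period_rsmul]; exact Submodule.smul_mem _ _ hl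

lemma map_real (f : A.H1 →ₗ[ℂ] A.H1) (hb : ∀ v, A.IsBetti v → A.IsBetti (f v)) (v : A.H1)
    (hv : v ∈ Submodule.span ℝ {u | A.IsBetti u}) : f v ∈ Submodule.span ℝ {u | A.IsBetti u} := by
  induction hv using Submodule.span_induction with
  | mem v hv => exact Submodule.subset_span (hb v hv)
  | zero => rw [map_zero]; exact Submodule.zero_mem _
  | add u v _ _ hu hv => rw [map_add]; exact Submodule.add_mem _ hu hv
  | smul r v _ hv =>
    have h4 : r • v = (r : ℂ) • v := by
      funext j; simp
    have h5 : f (r • v) = r • f v := by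
      rw [h4, map_smul]
      funext j; simp
    rw [h5]
    exact Submodule.smul_mem _ _ hv

/-- endomorphisms in terms of the periods -/
lemma map_period (f : A.H1 →ₗ[ℂ] A.H1) (hb : ∀ v, A.IsBetti v → A.IsBetti (f v))
    (l : Fin A.g → ℂ) : f (A.period l) = A.period (A.zz (f (A.period l))) :=
  real_span_betti A (map_real A f hb _ (period_mem_span A l))

lemma zz_map_period (f : A.H1 →ₗ[ℂ] A.H1) (hf : ∀ v, A.IsFil v → A.IsFil (f v))
    (c : ℂ) (l : Fin A.g → ℂ) : A.zz (f (A.period (c • l))) = c • A.zz (f (A.period l)) := by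
  have h1 : A.IsFil (A.period (c • l) - c • A.period l) := by
    intro a
    change c * l a - c * l a = 0
    rw [sub_self]
  have h2 := hf _ h1
  rw [map_sub, map_smul] at h2
  funext a
  have h3 := h2 a
  rw [Pi.sub_apply, Pi.smul_apply, sub_eq_zero] at h3
  exact h3

/-- the Hodge operator commutes with endomorphisms -/
lemma hop_comm (f : A.H1 →ₗ[ℂ] A.H1) (hb : ∀ v, A.IsBetti v → A.IsBetti (f v))
    (hf : ∀ v, A.IsFil v → A.IsFil (f v)) (v : A.H1) : hop A (f v) = f (hop A v) := by
  have hv := span_betti A v
  induction hv using Submodule.span_induction with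
  | mem v hv =>
    have h1 : v = A.period (A.zz v) := real_span_betti A (Submodule.subset_span hv)
    rw [h1, map_period A f hb, hop_period, hop_period, map_smul, map_period A f hb (Complex.I • _),
      zz_map_period A f hf]
  | zero => simp
  | add u v _ _ hu hv => rw [map_add, map_add, hu, hv, map_add, map_add]
  | smul c v _ hv => rw [map_smul, map_smul, hv, map_smul, map_smul]

lemma polForm_hop (u v : A.H1) : A.polForm (hop A u) v + A.polForm u (hop A v) = 0 := by
  rw [AbVar.polForm_apply, AbVar.polForm_apply, ← Finset.sum_add_distrib]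
  have h1 : ∑ a, v (.inl a) * bilForm A.q (Pi.single a 1) (A.zz u) =
      bilForm A.q (A.zz v) (A.zz u) := (GPC.bilForm_eq_sum A.q (A.zz v) (A.zz u)).symm
  have h2 : ∑ a, u (.inl a) * bilForm A.q (Pi.single a 1) (A.zz v) =
      bilForm A.q (A.zz u) (A.zz v) := (GPC.bilForm_eq_sum A.q (A.zz u) (A.zz v)).symm
  have h3 := bilForm_symm A.q A.q_symm (A.zz u) (A.zz v)
  have h4 : ∀ a, (hop A u (.inl a) * v (.inr a) - v (.inl a) * hop A u (.inr a)) +
      (u (.inl a) * hop A v (.inr a) - hop A v (.inl a) * u (.inr a)) =
      2 * (u (.inl a) * bilForm A.q (Pi.single a 1) (A.zz v)) -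
        2 * (v (.inl a) * bilForm A.q (Pi.single a 1) (A.zz u)) := by
    intro a
    rw [hop_inl, hop_inl, hop_inr, hop_inr]
    ring
  simp only [h4, Finset.sum_sub_distrib, ← Finset.mul_sum]
  rw [h1, h2, h3, sub_self]

/-- the Hodge operator and complex conjugation -/
lemma hop_cB (v : A.H1) : hop A (cB (pData A) v) = - cB (pData A) (hop A v) := by
  have hQ : ∀ u, A.IsBetti u → u ∈ (pData A).Q := fun u hu => (mem_pData_Q A u).mpr hu
  have hv := span_betti A v
  induction hv using Submodule.span_induction with
  | mem v hv =>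
    have h1 : v = A.period (A.zz v) := real_span_betti A (Submodule.subset_span hv)
    rw [cB_rat (pData A) v (hQ v hv)]
    rw [h1, hop_period, cB_smul, cB_real (pData A) _ (Submodule.span_mono hQ (period_mem_span A _))]
    rw [map_neg, Complex.conj_I, neg_neg, neg_smul]
  | zero => rw [map_zero, cB_zero, map_zero, neg_zero]
  | add u v _ _ hu hv => rw [cB_add, map_add, hu, hv, map_add, cB_add, neg_add]
  | smul c v _ hv => rw [cB_smul, map_smul, hv, map_smul, cB_smul, smul_neg]

end Pool.Agent.Helper40.Gpc
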