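import Pool.Agent.Helper40.Gpc.DQ

/-!
The Casimir tensor of the derived algebra is a Grothendieck tensor of degree four; operators which
kill it normalise the derived algebra.
-/

namespace Pool.Agent.Helper40.Gpc

open Module Pool.Agent.Helper7 LieAlgebra

attribute [local instance 100] LieRing.ofAssociativeRing

variable {κ : Type} [Fintype κ] [DecidableEq κ] {ϖ : ℂ} (P : PData κ ϖ)

omit [Fintype κ] [DecidableEq κ] in
lemma prodBilin2_apply (B C : (κ → ℂ) →ₗ[ℂ] (κ → ℂ) →ₗ[ℂ] ℂ) (v : Fin (2 * 2) → (κ → ℂ)) :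
    (prodBilin ![B, C] : TForm κ 2) v = B (v 0) (v 1) * C (v 2) (v 3) := by
  change ∏ a : Fin 2, (![B, C] a) (v (lo a)) (v (hi a)) = _
  rw [Fin.prod_univ_two]
  rfl

omit [Fintype κ] [DecidableEq κ] in
lemma actForm_prodBilin2 (X : Module.End ℂ (κ → ℂ)) (B C : (κ → ℂ) →ₗ[ℂ] (κ → ℂ) →ₗ[ℂ] ℂ)
    (v : Fin (2 * 2) → (κ → ℂ)) :
    actForm X (prodBilin ![B, C] : TForm κ 2) v =
      (B (X (v 0)) (v 1) + B (v 0) (X (v 1))) * C (v 2) (v 3) +
        B (v 0) (v 1) * (C (X (v 2)) (v 3) + C (v 2) (X (v 3))) := by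
  rw [actForm_apply]
  change ∑ r : Fin 4, _ = _
  rw [Fin.sum_univ_four]
  simp only [prodBilin2_apply]
  have e01 : (0 : Fin (2 * 2)) ≠ 1 := by decide
  have e02 : (0 : Fin (2 * 2)) ≠ 2 := by decide
  have e03 : (0 : Fin (2 * 2)) ≠ 3 := by decide
  have e12 : (1 : Fin (2 * 2)) ≠ 2 := by decide
  have e13 : (1 : Fin (2 * 2)) ≠ 3 := by decide
  have e23 : (2 : Fin (2 * 2)) ≠ 3 := by decide
  have f : ∀ (a b : Fin (2 * 2)) (x : κ → ℂ), a ≠ b → Function.update v b x a = v a :=
    fun a b x h => Function.update_of_ne h _ _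
  change B (Function.update v (0 : Fin (2 * 2)) (X (v 0)) 0)
      (Function.update v (0 : Fin (2 * 2)) (X (v 0)) 1) *
      C (Function.update v (0 : Fin (2 * 2)) (X (v 0)) 2)
        (Function.update v (0 : Fin (2 * 2)) (X (v 0)) 3) +
      B (Function.update v (1 : Fin (2 * 2)) (X (v 1)) 0)
      (Function.update v (1 : Fin (2 * 2)) (X (v 1)) 1) *
      C (Function.update v (1 : Fin (2 * 2)) (X (v 1)) 2)
        (Function.update v (1 : Fin (2 * 2)) (X (v 1)) 3) +
      B (Function.update v (2 : Fin (2 * 2)) (X (v 2)) 0)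
      (Function.update v (2 : Fin (2 * 2)) (X (v 2)) 1) *
      C (Function.update v (2 : Fin (2 * 2)) (X (v 2)) 2)
        (Function.update v (2 : Fin (2 * 2)) (X (v 2)) 3) +
      B (Function.update v (3 : Fin (2 * 2)) (X (v 3)) 0)
      (Function.update v (3 : Fin (2 * 2)) (X (v 3)) 1) *
      C (Function.update v (3 : Fin (2 * 2)) (X (v 3)) 2)
        (Function.update v (3 : Fin (2 * 2)) (X (v 3)) 3) = _
  rw [Function.update_self, Function.update_self, Function.update_self, Function.update_self,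
    f 1 0 _ e01.symm, f 2 0 _ e02.symm, f 3 0 _ e03.symm, f 0 1 _ e01, f 2 1 _ e12.symm,
    f 3 1 _ e13.symm, f 0 2 _ e02, f 1 2 _ e12, f 3 2 _ e23.symm, f 0 3 _ e03, f 1 3 _ e13,
    f 2 3 _ e23]
  ring

/-- action of a skew operator on the form of an operator -/
lemma act_bil {X : Module.End ℂ (κ → ℂ)} (hX : ∀ u v, P.ψ (X u) v + P.ψ u (X v) = 0)
    (A : Module.End ℂ (κ → ℂ)) (u v : κ → ℂ) :
    P.ψ (A (X u)) v + P.ψ (A u) (X v) = P.ψ ((A * X - X * A) u) v := by
  rw [LinearMap.sub_apply, map_sub, LinearMap.sub_apply, Module.End.mul_apply,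
    Module.End.mul_apply]
  linear_combination hX (A u) v

section casimir

variable {m : ℕ} (x x' : Fin m → Module.End ℚ P.Q)

/-- the Casimir tensor -/
noncomputable def cas : TForm κ 2 :=
  ∑ i, prodBilin ![P.ψ ∘ₗ ext P (x' i), P.ψ ∘ₗ ext P (x i)]

omit [Fintype κ] [DecidableEq κ] in
lemma actForm_sum_right {k : ℕ} {Y : Type*} (s : Finset Y) (X : Module.End ℂ (κ → ℂ))
    (β : Y → TForm κ k) : actForm X (∑ y ∈ s, β y) = ∑ y ∈ s, actForm X (β y) := by
  apply MultilinearMap.ext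
  intro v
  rw [actForm_apply, _root_.sum_apply]
  simp only [_root_.sum_apply, actForm_apply]
  rw [Finset.sum_comm]

lemma cas_apply (v : Fin (2 * 2) → (κ → ℂ)) :
    cas P x x' v = ∑ i, P.ψ (ext P (x' i) (v 0)) (v 1) * P.ψ (ext P (x i) (v 2)) (v 3) := by
  rw [cas, _root_.sum_apply]
  refine Finset.sum_congr rfl fun i _ => ?_
  rw [prodBilin2_apply]
  rfl

lemma actForm_cas {X : Module.End ℂ (κ → ℂ)} (hX : ∀ u v, P.ψ (X u) v + P.ψ u (X v) = 0)
    (v : Fin (2 * 2) → (κ → ℂ)) : actForm X (cas P x x') v =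
      ∑ i, (P.ψ ((ext P (x' i) * X - X * ext P (x' i)) (v 0)) (v 1) *
        P.ψ (ext P (x i) (v 2)) (v 3) + P.ψ (ext P (x' i) (v 0)) (v 1) *
        P.ψ ((ext P (x i) * X - X * ext P (x i)) (v 2)) (v 3)) := by
  rw [cas, actForm_sum_right, _root_.sum_apply]
  refine Finset.sum_congr rfl fun i _ => ?_
  rw [actForm_prodBilin2]
  simp only [LinearMap.comp_apply]
  rw [act_bil P hX, act_bil P hX]

variable (hϖ : ϖ ≠ 0) (hx : ∀ i, x i ∈ DQ P) (hx' : ∀ i, x' i ∈ DQ P)
    (h1 : ∀ z ∈ DQ P, z = ∑ i, LinearMap.trace ℚ P.Q (x' i * z) • x i)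
    (h2 : ∀ z ∈ DQ P, z = ∑ i, LinearMap.trace ℚ P.Q (z * x i) • x' i)
    (h3 : ∀ i j, LinearMap.trace ℚ P.Q (x' i * x j) = if j = i then 1 else 0)

include hϖ hx hx' h1 h2 in
/-- the Casimir tensor is a Grothendieck tensor -/
theorem isTens_cas : IsTens P 2 (cas P x x') := by
  apply isTens_of_GQ P hϖ
  · intro v hv
    have e : ∀ i, ∃ q : ℚ, P.ψ (ext P (x' i) (v 0)) (v 1) * P.ψ (ext P (x i) (v 2)) (v 3) =
        ϖ ^ 2 * q := by
      intro i
      obtain ⟨p, hp⟩ := P.hψQ _ (ext_mem P (x' i) _ (hv 0)) _ (hv 1)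
      obtain ⟨q, hq⟩ := P.hψQ _ (ext_mem P (x i) _ (hv 2)) _ (hv 3)
      refine ⟨p * q, ?_⟩
      rw [hp, hq]
      push_cast
      ring
    choose q hq using e
    refine ⟨∑ i, q i, ?_⟩
    rw [cas_apply, Finset.sum_congr rfl (fun i _ => hq i), ← Finset.mul_sum]
    push_cast
    rfl
  · intro y hy
    apply MultilinearMap.ext
    intro v
    rw [actForm_cas P x x' (fun u v => skew_of_kills P ((mem_GQ P).mp hy) u v),
      _root_.zero_apply]
    have hE : ∀ i, x' i * y - y * x' i ∈ DQ P := fun i => DQ_lie P (DQ_le P (hx' i)) hy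
    have hF : ∀ i, x i * y - y * x i ∈ DQ P := fun i => DQ_lie P (DQ_le P (hx i)) hy
    have e1 : ∀ i, P.ψ ((ext P (x' i) * ext P y - ext P y * ext P (x' i)) (v 0)) (v 1) =
        ∑ j, ((LinearMap.trace ℚ P.Q ((x' i * y - y * x' i) * x j) : ℚ) : ℂ) *
          P.ψ (ext P (x' j) (v 0)) (v 1) := by
      intro i
      rw [← ext_mul, ← ext_mul, ← ext_sub]
      conv_lhs => rw [h2 _ (hE i)]
      rw [ext_sum, LinearMap.sum_apply, map_sum, LinearMap.sum_apply]
      refine Finset.sum_congr rfl fun j _ => ?_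
      rw [ext_smul, LinearMap.smul_apply, map_smul, LinearMap.smul_apply, smul_eq_mul]
    have e2 : ∀ i, P.ψ ((ext P (x i) * ext P y - ext P y * ext P (x i)) (v 2)) (v 3) =
        ∑ j, ((LinearMap.trace ℚ P.Q (x' j * (x i * y - y * x i)) : ℚ) : ℂ) *
          P.ψ (ext P (x j) (v 2)) (v 3) := by
      intro i
      rw [← ext_mul, ← ext_mul, ← ext_sub]
      conv_lhs => rw [h1 _ (hF i)]
      rw [ext_sum, LinearMap.sum_apply, map_sum, LinearMap.sum_apply]
      refine Finset.sum_congr rfl fun j _ => ?_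
      rw [ext_smul, LinearMap.smul_apply, map_smul, LinearMap.smul_apply, smul_eq_mul]
    rw [Finset.sum_add_distrib]
    have e3 : ∑ i, P.ψ ((ext P (x' i) * ext P y - ext P y * ext P (x' i)) (v 0)) (v 1) *
        P.ψ (ext P (x i) (v 2)) (v 3) = ∑ i, ∑ j,
        ((LinearMap.trace ℚ P.Q ((x' i * y - y * x' i) * x j) : ℚ) : ℂ) *
          (P.ψ (ext P (x' j) (v 0)) (v 1) * P.ψ (ext P (x i) (v 2)) (v 3)) := by
      refine Finset.sum_congr rfl fun i _ => ?_
      rw [e1 i, Finset.sum_mul]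
      exact Finset.sum_congr rfl fun j _ => by ring
    have e4 : ∑ i, P.ψ (ext P (x' i) (v 0)) (v 1) *
        P.ψ ((ext P (x i) * ext P y - ext P y * ext P (x i)) (v 2)) (v 3) = ∑ i, ∑ j,
        ((LinearMap.trace ℚ P.Q (x' i * (x j * y - y * x j)) : ℚ) : ℂ) *
          (P.ψ (ext P (x' j) (v 0)) (v 1) * P.ψ (ext P (x i) (v 2)) (v 3)) := by
      rw [Finset.sum_comm]
      refine Finset.sum_congr rfl fun i _ => ?_
      rw [e2 i, Finset.mul_sum]
      exact Finset.sum_congr rfl fun j _ => by ring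
    rw [e3, e4, ← Finset.sum_add_distrib]
    refine Finset.sum_eq_zero fun i _ => ?_
    rw [← Finset.sum_add_distrib]
    refine Finset.sum_eq_zero fun j _ => ?_
    have e5 : LinearMap.trace ℚ P.Q ((x' i * y - y * x' i) * x j) +
        LinearMap.trace ℚ P.Q (x' i * (x j * y - y * x j)) = 0 :=
      trace_aux (V := P.Q) (x j) (x' i) y
    have e7 : ((LinearMap.trace ℚ P.Q ((x' i * y - y * x' i) * x j) : ℚ) : ℂ) +
        ((LinearMap.trace ℚ P.Q (x' i * (x j * y - y * x j)) : ℚ) : ℂ) = 0 := by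
      exact_mod_cast e5
    rw [← add_mul, e7, zero_mul]

/-- coordinates through the form -/
lemma exists_psi_coord (k : P.ι) : ∃ d : κ → ℂ, ∀ w, P.ψ w d = P.bB.repr w k := by
  have hinj : Function.Injective P.ψ.flip := by
    intro u u' huu
    have h1 : u - u' = 0 := P.hψnd _ (fun v => by
      rw [P.hψalt, map_sub]
      have := congrArg (fun f => f v) huu
      simp only [LinearMap.flip_apply] at this
      rw [this, sub_self, neg_zero])
    exact sub_eq_zero.mp h1
  have hsurj : Function.Surjective P.ψ.flip := by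
    have h1 := (LinearMap.injective_iff_surjective_of_finrank_eq_finrank
      (f := P.ψ.flip) (Subspace.dual_finrank_eq).symm).mp hinj
    exact h1
  obtain ⟨d, hd⟩ := hsurj (P.bB.coord k)
  refine ⟨d, fun w => ?_⟩
  have := congrArg (fun f => f w) hd
  simpa only [LinearMap.flip_apply, Basis.coord_apply] using this

lemma trace_eq_sum_repr (A : Module.End ℂ (κ → ℂ)) :
    LinearMap.trace ℂ (κ → ℂ) A = ∑ k, P.bB.repr (A (P.bB k)) k := by
  classical
  rw [LinearMap.trace_eq_matrix_trace ℂ P.bB, Matrix.trace]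
  refine Finset.sum_congr rfl fun k _ => ?_
  rw [Matrix.diag_apply, LinearMap.toMatrix_apply]

include h3 in
/-- operators killing the Casimir tensor -/
lemma normal_aux {X : Module.End ℂ (κ → ℂ)} (hX : ∀ u v, P.ψ (X u) v + P.ψ u (X v) = 0)
    (hX0 : actForm X (cas P x x') = 0) (j : Fin m) :
    (∑ i, LinearMap.trace ℂ (κ → ℂ) ((ext P (x' i) * X - X * ext P (x' i)) * ext P (x j)) •
      ext P (x i)) + (ext P (x j) * X - X * ext P (x j)) = 0 := by
  classical
  have e1 : ∀ v0 v1, ∑ i, (P.ψ ((ext P (x' i) * X - X * ext P (x' i)) v0) v1 • ext P (x i) +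
      P.ψ (ext P (x' i) v0) v1 • (ext P (x i) * X - X * ext P (x i))) = 0 := by
    intro v0 v1
    apply LinearMap.ext
    intro v2
    rw [LinearMap.zero_apply]
    apply P.hψnd
    intro v3
    have e2 := congrArg (fun f => f ![v0, v1, v2, v3]) hX0
    rw [actForm_cas P x x' hX] at e2
    rw [LinearMap.sum_apply, map_sum, LinearMap.sum_apply]
    simp only [LinearMap.add_apply, LinearMap.smul_apply, map_add, map_smul, smul_eq_mul]
    exact e2
  choose d hd using exists_psi_coord P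
  have e2 : ∑ k, ∑ i, (P.ψ ((ext P (x' i) * X - X * ext P (x' i)) (ext P (x j) (P.bB k))) (d k) •
      ext P (x i) + P.ψ (ext P (x' i) (ext P (x j) (P.bB k))) (d k) •
        (ext P (x i) * X - X * ext P (x i))) = 0 :=
    Finset.sum_eq_zero fun k _ => e1 _ _
  rw [Finset.sum_comm] at e2
  simp only [hd, Finset.sum_add_distrib, ← Finset.sum_smul] at e2
  have e3 : ∀ A : Module.End ℂ (κ → ℂ), ∑ k, P.bB.repr (A (ext P (x j) (P.bB k))) k =
      LinearMap.trace ℂ (κ → ℂ) (A * ext P (x j)) := by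
    intro A
    rw [trace_eq_sum_repr P]
    rfl
  simp only [e3] at e2
  have e4 : ∀ i, LinearMap.trace ℂ (κ → ℂ) (ext P (x' i) * ext P (x j)) =
      if j = i then 1 else 0 := by
    intro i
    rw [← ext_mul, trace_ext, h3]
    split_ifs <;> simp
  simp only [e4] at e2
  rw [← e2]
  congr 1
  simp

include hx h1 h3 in
/-- the rational components of an operator killing the Casimir tensor normalise the derived
algebra -/
theorem normal {X : Module.End ℂ (κ → ℂ)} (hX : ∀ u v, P.ψ (X u) v + P.ψ u (X v) = 0)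
    (hX0 : actForm X (cas P x x') = 0) {n : ℕ} (c : Fin n → ℂ) (hc : LinearIndependent ℚ c)
    (y : Fin n → Module.End ℚ P.Q) (hy : X = ∑ l, c l • ext P (y l)) (l : Fin n)
    (z : Module.End ℚ P.Q) (hz : z ∈ DQ P) : y l * z - z * y l ∈ DQ P := by
  have e0 : ∀ j, x j * y l - y l * x j ∈ DQ P := by
    intro j
    have e1 := normal_aux P x x' h3 hX hX0 j
    have e2 : ∀ a : Module.End ℚ P.Q, ext P a * X - X * ext P a =
        ∑ l, c l • ext P (a * y l - y l * a) := by
      intro a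
      rw [hy, Finset.mul_sum, Finset.sum_mul, ← Finset.sum_sub_distrib]
      refine Finset.sum_congr rfl fun l _ => ?_
      rw [ext_sub, ext_mul, ext_mul, smul_sub, mul_smul_comm, smul_mul_assoc]
    have e3 : ∀ i, LinearMap.trace ℂ (κ → ℂ)
        ((ext P (x' i) * X - X * ext P (x' i)) * ext P (x j)) =
        ∑ l, c l * ((LinearMap.trace ℚ P.Q ((x' i * y l - y l * x' i) * x j) : ℚ) : ℂ) := by
      intro i
      rw [e2, Finset.sum_mul, map_sum]
      refine Finset.sum_congr rfl fun l _ => ?_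
      rw [smul_mul_assoc, map_smul, smul_eq_mul, ← ext_mul, trace_ext]
    have e4 : ∑ l, c l • ext P ((∑ i, LinearMap.trace ℚ P.Q ((x' i * y l - y l * x' i) * x j) •
        x i) + (x j * y l - y l * x j)) = 0 := by
      rw [← e1, e2 (x j)]
      simp only [ext_add, smul_add, Finset.sum_add_distrib]
      congr 1
      simp only [e3, ext_sum, ext_smul, Finset.smul_sum, Finset.sum_smul, smul_smul]
      rw [Finset.sum_comm]
    have e5 := ext_indep P c hc _ e4 l
    exact mem_of_add_eq_zero (V := P.Q) (DQ P)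
      ((DQ P).sum_mem fun i _ => (DQ P).smul_mem _ (hx i)) e5
  exact mem_normal_aux (V := P.Q) (DQ P) x (fun i => LinearMap.trace ℚ P.Q (x' i * z)) (y l) z
    (h1 z hz) e0

end casimir

end Pool.Agent.Helper40.Gpc
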