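import Pool.Agent.Helper7.Cohomology

/-!
Classes on the powers of an abelian variety: the Hodge filtration, the action of endomorphisms,
and the centre of the Hodge group.

Definitions only.
-/

namespace Pool.Agent.GPC

namespace AbVar

variable (A : AbVar)

/-- `e` is (the action on `H_1(A(ℂ), ℂ)` of) an endomorphism of `A` (tensor `ℚ`) with `e' = -e`,
where `'` is the Rosati involution. -/
def IsSkewEnd (e : A.H1 → A.H1) : Prop :=
  A.IsEnd e ∧ ∀ u v, A.pol (e u) v = - A.pol u (e v)

/-- The trace of the action of `f` on `Lie A = H_1(A(ℂ), ℂ) / F^0`, for a linear map `f` which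
respects `F^0` (a basis of `Lie A` is given by the classes of the first `dim A` vectors of the
standard basis). -/
noncomputable def lieTrace (f : A.H1 → A.H1) : ℂ := ∑ a, f (Pi.single (.inl a) 1) (.inl a)

/-- `z` is a central endomorphism of `A` (tensor `ℚ`) with `z' = -z`, and the trace of `z e` on
`Lie A` is zero for every endomorphism `e` of `A` (tensor `ℚ`) with `e' = -e` and with trace zero on
`Lie A`.  (These `z` form the Lie algebra of the centre of the Hodge group of `A`.) -/
def IsHodgeCentral (z : A.H1 → A.H1) : Prop :=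
  A.IsSkewEnd z ∧ (∀ f, A.IsEnd f → ∀ v, z (f v) = f (z v)) ∧
    ∀ e, A.IsSkewEnd e → A.lieTrace e = 0 → A.lieTrace (fun v => z (e v)) = 0

end AbVar

/-- `H^m(A^n, ℂ)`, the space of alternating forms of degree `m` on `H_1(A^n, ℂ)` -/
abbrev PowForm (A : AbVar) (n m : ℕ) : Type := Form (fun _ : Unit => A) (fun _ => n) m

/-- `α ∈ H^m(A^n, ℂ)` is killed by the endomorphism `e` of `A`, which acts diagonally on
`H_1(A^n, ℂ) = H_1(A, ℂ)^n` and as a derivation on forms. -/
def IsKilledBy (A : AbVar) (n m : ℕ) (e : A.H1 → A.H1) (α : PowForm A n m) : Prop :=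
  ∀ v : Fin m → H1 (fun _ : Unit => A) (fun _ => n),
    ∑ r, α (Function.update v r (fun i j => e (v r i j))) = 0

/-- `α` lies in the step `F^k` of the Hodge filtration on `H^{2k}(X, ℂ)`, where `X = ∏_i A_i^{n_i}`:
it vanishes whenever more than `k` of its `2k` arguments lie in `F^0 H_1(X, ℂ)`. -/
def IsHodge {I : Type} (A : I → AbVar) (n : I → ℕ) (k : ℕ) (α : Form A n (2 * k)) : Prop :=
  ∀ v : Fin (2 * k) → H1 A n,
    (∃ S : Finset (Fin (2 * k)), k < S.card ∧ ∀ r ∈ S, IsFil A n (v r)) → α v = 0

end Pool.Agent.GPC
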