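import Pool.Agent.Helper40.Gpc.HodgeOp

/-!
Positivity: a skew endomorphism whose square has trace zero vanishes; trace of the Hodge operator
times a skew endomorphism.
-/

open scoped ComplexConjugate MatrixOrder ComplexOrder

namespace Pool.Agent.Helper40.Gpc

open Module Pool.Agent.Helper7 Pool.Agent.GPC

section matrix

open Matrix

lemma skew_trace_zero {g : ℕ} (H K : Matrix (Fin g) (Fin g) ℂ) (hH : H.PosDef)
    (hK : Kᴴ * H + H * K = 0) (ht : (K * K).trace = 0) : K = 0 := by
  obtain ⟨B, hB⟩ := CStarAlgebra.nonneg_iff_eq_star_mul_self.mp hH.posSemidef.nonneg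
  rw [star_eq_conjTranspose] at hB
  have hdet : IsUnit B.det := by
    have h1 : IsUnit H.det := (Matrix.isUnit_iff_isUnit_det _).mp hH.isUnit
    rw [hB, Matrix.det_mul] at h1
    exact isUnit_of_mul_isUnit_right h1
  have hB1 : B * B⁻¹ = 1 := Matrix.mul_nonsing_inv B hdet
  have hB2 : B⁻¹ * B = 1 := Matrix.nonsing_inv_mul B hdet
  have hB3 : Bᴴ * (B⁻¹)ᴴ = 1 := by rw [← Matrix.conjTranspose_mul, hB2, Matrix.conjTranspose_one]
  have hB4 : (B⁻¹)ᴴ * Bᴴ = 1 := by rw [← Matrix.conjTranspose_mul, hB1, Matrix.conjTranspose_one]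
  set K' := B * K * B⁻¹ with hK'
  have h1 : K'ᴴ + K' = 0 := by
    have h2 : (B⁻¹)ᴴ * (Kᴴ * H + H * K) * B⁻¹ = 0 := by rw [hK, Matrix.mul_zero, Matrix.zero_mul]
    rw [← h2, hK', Matrix.conjTranspose_mul, Matrix.conjTranspose_mul, hB, Matrix.mul_add,
      Matrix.add_mul]
    congr 1
    · calc (B⁻¹)ᴴ * (Kᴴ * Bᴴ) = (B⁻¹)ᴴ * (Kᴴ * Bᴴ) * (B * B⁻¹) := by rw [hB1, Matrix.mul_one]
        _ = (B⁻¹)ᴴ * (Kᴴ * (Bᴴ * B)) * B⁻¹ := by simp only [Matrix.mul_assoc]
    · calc B * K * B⁻¹ = ((B⁻¹)ᴴ * Bᴴ) * (B * K * B⁻¹) := by rw [hB4, Matrix.one_mul]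
        _ = (B⁻¹)ᴴ * (Bᴴ * B * K) * B⁻¹ := by simp only [Matrix.mul_assoc]
  have h2 : (K'ᴴ * K').trace = 0 := by
    have h3 : K'ᴴ = -K' := by rw [eq_neg_iff_add_eq_zero]; exact h1
    rw [h3, Matrix.neg_mul, Matrix.trace_neg, hK']
    have h4 : B * K * B⁻¹ * (B * K * B⁻¹) = B * (K * K) * B⁻¹ := by
      calc B * K * B⁻¹ * (B * K * B⁻¹) = B * K * (B⁻¹ * B) * K * B⁻¹ := by
            simp only [Matrix.mul_assoc]
        _ = B * (K * K) * B⁻¹ := by rw [hB2, Matrix.mul_one]; simp only [Matrix.mul_assoc]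
    rw [h4, Matrix.trace_mul_comm, ← Matrix.mul_assoc, hB2, Matrix.one_mul, ht, neg_zero]
  have h3 : K' = 0 := Matrix.trace_conjTranspose_mul_self_eq_zero_iff.mp h2
  calc K = (B⁻¹ * B) * K * (B⁻¹ * B) := by rw [hB2, Matrix.one_mul, Matrix.mul_one]
    _ = B⁻¹ * K' * B := by rw [hK']; simp only [Matrix.mul_assoc]
    _ = 0 := by rw [h3, Matrix.mul_zero, Matrix.zero_mul]

end matrix

variable (A : AbVar)

lemma H_posDef : A.H.PosDef := by
  refine Matrix.PosDef.of_dotProduct_mulVec_pos A.H_herm fun x hx => ?_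
  have h1 : star x ⬝ᵥ (A.H.mulVec x) = hermForm A.H (star x) (star x) := by
    rw [hermForm, dotProduct]
    refine Finset.sum_congr rfl fun a _ => ?_
    rw [Matrix.mulVec, dotProduct, Finset.mul_sum]
    refine Finset.sum_congr rfl fun b _ => ?_
    rw [Pi.star_apply, Pi.star_apply, Complex.star_def, Complex.conj_conj]
    ring
  rw [h1]
  have h2 := A.H_pos (star x) (by
    intro h
    apply hx
    have := congrArg star h
    rwa [star_star, star_zero] at this)
  have h3 := Helper7.hermForm_symm A.H A.H_herm (star x) (star x)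
  rw [Complex.lt_def]
  refine ⟨h2, ?_⟩
  have h4 := congrArg Complex.im h3
  rw [Complex.conj_im] at h4
  rw [Complex.zero_im]
  linarith

/-- matrix of the action on the Lie algebra -/
def lieMat (f : A.H1 → A.H1) : Matrix (Fin A.g) (Fin A.g) ℂ :=
  fun a b => f (Pi.single (.inl b) 1) (.inl a)

variable (F : A.H1 →ₗ[ℂ] A.H1)

lemma vec_expand (v : A.H1) : v = ∑ b, v (.inl b) • (Pi.single (.inl b) (1 : ℂ) : A.H1) +
    ∑ b, v (.inr b) • (Pi.single (.inr b) (1 : ℂ) : A.H1) := by
  have h1 : v = ∑ s, v s • (Pi.single s (1 : ℂ) : A.H1) := by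
    funext j
    simp [Finset.sum_apply, Pi.single_apply]
  conv_lhs => rw [h1]
  rw [Fintype.sum_sum_type]

lemma fil_single (b : Fin A.g) : A.IsFil (Pi.single (.inr b) (1 : ℂ) : A.H1) := by
  intro a
  rw [Pi.single_eq_of_ne (by simp)]

lemma inl_map (hf : ∀ v, A.IsFil v → A.IsFil (F v)) (v : A.H1) (a : Fin A.g) :
    F v (.inl a) = ∑ b, lieMat A F a b * v (.inl b) := by
  conv_lhs => rw [vec_expand A v]
  rw [map_add, map_sum, map_sum, Pi.add_apply, Finset.sum_apply, Finset.sum_apply]
  have h1 : ∑ b, F (v (.inr b) • (Pi.single (.inr b) (1 : ℂ) : A.H1)) (.inl a) = 0 :=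
    Finset.sum_eq_zero fun b _ => by
      rw [map_smul, Pi.smul_apply, hf _ (fil_single A b) a, smul_zero]
  rw [h1, add_zero]
  refine Finset.sum_congr rfl fun b _ => ?_
  rw [map_smul, Pi.smul_apply, smul_eq_mul, mul_comm]
  rfl

lemma polForm_single_inl (i : Fin A.g) (v : A.H1) :
    A.polForm (Pi.single (.inl i) 1) v = v (.inr i) := by
  rw [AbVar.polForm_apply, Finset.sum_eq_single i (fun b _ hb => by
    rw [Pi.single_eq_of_ne (fun h => hb (Sum.inl.inj h)), Pi.single_eq_of_ne (by simp)]; ring)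
    (by simp)]
  simp

lemma polForm_single_inr (j : Fin A.g) (u : A.H1) :
    A.polForm u (Pi.single (.inr j) 1) = u (.inl j) := by
  rw [AbVar.polForm_apply, Finset.sum_eq_single j (fun b _ hb => by
    rw [Pi.single_eq_of_ne (fun h => hb (Sum.inr.inj h)), Pi.single_eq_of_ne (by simp)]; ring)
    (by simp)]
  simp

variable (hs : ∀ u v, A.polForm (F u) v + A.polForm u (F v) = 0)

include hs in
lemma inr_single (i j : Fin A.g) :
    F (Pi.single (.inr j) 1) (.inr i) = - lieMat A F j i := by
  have h1 := hs (Pi.single (.inl i) 1) (Pi.single (.inr j) 1)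
  rw [polForm_single_inl, polForm_single_inr] at h1
  have h2 : lieMat A F j i = F (Pi.single (.inl i) 1) (.inl j) := rfl
  rw [h2]
  exact eq_neg_of_add_eq_zero_left (by rw [add_comm] at h1; exact h1)

lemma trace_pi (G : A.H1 →ₗ[ℂ] A.H1) : LinearMap.trace ℂ A.H1 G =
    ∑ a, G (Pi.single (.inl a) 1) (.inl a) + ∑ a, G (Pi.single (.inr a) 1) (.inr a) := by
  classical
  rw [LinearMap.trace_eq_matrix_trace ℂ (Pi.basisFun ℂ (Fin A.g ⊕ Fin A.g)), Matrix.trace,
    Fintype.sum_sum_type]
  refine congrArg₂ (· + ·) ?_ ?_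
  · refine Finset.sum_congr rfl fun a _ => ?_
    rw [Matrix.diag_apply, LinearMap.toMatrix_apply, Pi.basisFun_apply, Pi.basisFun_repr]
  · refine Finset.sum_congr rfl fun a _ => ?_
    rw [Matrix.diag_apply, LinearMap.toMatrix_apply, Pi.basisFun_apply, Pi.basisFun_repr]

variable (hf : ∀ v, A.IsFil v → A.IsFil (F v))

include hs hf in
lemma trace_hop_mul : LinearMap.trace ℂ A.H1 (hop A * F) = 2 * (lieMat A F).trace := by
  rw [trace_pi, two_mul]
  congr 1
  rw [Matrix.trace]
  refine Finset.sum_congr rfl fun a _ => ?_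
  rw [Module.End.mul_apply, hop_inr, inr_single A F hs]
  have h1 : A.zz (F (Pi.single (.inr a) 1)) = 0 := by
    funext b
    exact hf _ (fil_single A a) b
  rw [h1]
  have h2 : bilForm A.q (Pi.single a 1) 0 = 0 := by simp [bilForm]
  rw [h2, Matrix.diag_apply]
  ring

include hs hf in
lemma trace_mul_skew (G : A.H1 →ₗ[ℂ] A.H1)
    (hsG : ∀ u v, A.polForm (G u) v + A.polForm u (G v) = 0)
    (hfG : ∀ v, A.IsFil v → A.IsFil (G v)) :
    LinearMap.trace ℂ A.H1 (F * G) = 2 * (lieMat A F * lieMat A G).trace := by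
  rw [trace_pi, two_mul]
  congr 1
  · rw [Matrix.trace]
    refine Finset.sum_congr rfl fun a _ => ?_
    rw [Module.End.mul_apply, inl_map A F hf, Matrix.diag_apply, Matrix.mul_apply]
    rfl
  · rw [Matrix.trace_mul_comm, Matrix.trace]
    simp only [Matrix.diag_apply, Matrix.mul_apply]
    refine Finset.sum_congr rfl fun a _ => ?_
    rw [Module.End.mul_apply]
    have h1 : G (Pi.single (.inr a) 1) =
        ∑ b, (- lieMat A G a b) • (Pi.single (.inr b) (1 : ℂ) : A.H1) := by
      conv_lhs => rw [vec_expand A (G (Pi.single (.inr a) 1))]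
      have h2 : ∑ b, G (Pi.single (.inr a) 1) (.inl b) • (Pi.single (.inl b) (1 : ℂ) : A.H1) = 0 :=
        Finset.sum_eq_zero fun b _ => by
          rw [hfG _ (fil_single A a) b, zero_smul]
      rw [h2, zero_add]
      refine Finset.sum_congr rfl fun b _ => ?_
      rw [inr_single A G hsG]
    rw [h1, map_sum, Finset.sum_apply]
    refine Finset.sum_congr rfl fun b _ => ?_
    rw [map_smul, Pi.smul_apply, smul_eq_mul, inr_single A F hs]
    ring

include hs hf in
lemma trace_sq : LinearMap.trace ℂ A.H1 (F * F) = 2 * (lieMat A F * lieMat A F).trace :=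
  trace_mul_skew A F hs hf F hs hf

include hs hf in
/-- positivity of the Rosati involution on skew endomorphisms -/
theorem eq_zero_of_trace_sq (hb : ∀ v, A.IsBetti v → A.IsBetti (F v))
    (ht : LinearMap.trace ℂ A.H1 (F * F) = 0) : F = 0 := by
  have hM : ∀ l, A.zz (F (A.period l)) = (lieMat A F).mulVec l := by
    intro l
    funext a
    rw [AbVar.zz_apply, inl_map A F hf, Matrix.mulVec, dotProduct]
    rfl
  have hskew : ∀ l m, hermForm A.H ((lieMat A F).mulVec l) m +
      hermForm A.H l ((lieMat A F).mulVec m) = 0 := by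
    have h0 : ∀ l m, (hermForm A.H ((lieMat A F).mulVec l) m +
        hermForm A.H l ((lieMat A F).mulVec m)).im = 0 := by
      intro l m
      have h1 := hs (A.period l) (A.period m)
      rw [map_period A F hb l, map_period A F hb m, polForm_period, polForm_period, hM, hM,
        ← mul_add] at h1
      have h2 := (mul_eq_zero.mp h1).resolve_left Complex.two_pi_I_ne_zero
      rw [Complex.add_im]
      exact_mod_cast h2
    intro l m
    apply Complex.ext
    · have h1 := h0 l (Complex.I • m)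
      rw [Matrix.mulVec_smul, GPC.hermForm_smul_right, GPC.hermForm_smul_right, ← mul_add,
        Complex.conj_I] at h1
      rw [Complex.zero_re]
      have h2 : (-Complex.I * (hermForm A.H ((lieMat A F).mulVec l) m +
        hermForm A.H l ((lieMat A F).mulVec m))).im =
        -(hermForm A.H ((lieMat A F).mulVec l) m +
        hermForm A.H l ((lieMat A F).mulVec m)).re := by
        simp [Complex.mul_im]
      rw [h2] at h1
      linarith
    · rw [Complex.zero_im]
      exact h0 l m
  set M := lieMat A F with hMdef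
  set K : Matrix (Fin A.g) (Fin A.g) ℂ := M.map conj with hK
  have hKH : K.conjTranspose * A.H + A.H * K = 0 := by
    ext i j
    have h1 := hskew (Pi.single i 1) (Pi.single j 1)
    rw [Matrix.mulVec_single_one, Matrix.mulVec_single_one] at h1
    rw [Matrix.add_apply, Matrix.mul_apply, Matrix.mul_apply, Matrix.zero_apply, ← h1]
    congr 1
    · rw [hermForm]
      refine Finset.sum_congr rfl fun a _ => ?_
      rw [Finset.sum_eq_single j]
      · rw [Pi.single_eq_same, map_one, mul_one, Matrix.conjTranspose_apply, hK, Matrix.map_apply,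
          Complex.star_def, Complex.conj_conj]
        rfl
      · intro b _ hb
        rw [Pi.single_eq_of_ne hb, map_zero, mul_zero]
      · intro h; exact absurd (Finset.mem_univ _) h
    · rw [Helper7.hermForm_single]
      refine Finset.sum_congr rfl fun b _ => ?_
      rfl
  have hKt : (K * K).trace = 0 := by
    have h1 : (M * M).trace = 0 := by
      have h2 := trace_sq A F hs hf
      rw [ht] at h2
      exact (mul_eq_zero.mp h2.symm).resolve_left two_ne_zero
    have h2 : K * K = (M * M).map conj := by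
      rw [hK, Matrix.map_mul]
    rw [h2]
    have h3 : ((M * M).map conj).trace = conj (M * M).trace := by
      rw [Matrix.trace, Matrix.trace, map_sum]
      rfl
    rw [h3, h1, map_zero]
  have hK0 : K = 0 := skew_trace_zero A.H K (H_posDef A) hKH hKt
  have hM0 : M = 0 := by
    ext a b
    have h1 := congrFun (congrFun hK0 a) b
    rw [hK, Matrix.map_apply, Matrix.zero_apply] at h1
    rw [Matrix.zero_apply]
    exact (map_eq_zero _).mp h1
  have h0 : ∀ v, A.IsBetti v → F v = 0 := by
    intro v hv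
    have h1 : v = A.period (A.zz v) := real_span_betti A (Submodule.subset_span hv)
    rw [h1, map_period A F hb, hM, hM0, Matrix.zero_mulVec, period_zero]
  apply (pData A).bB.ext
  intro i
  rw [LinearMap.zero_apply]
  exact h0 _ ((mem_pData_Q A _).mp ((pData A).basis_mem i))

end Pool.Agent.Helper40.Gpc
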