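import Pool.Agent.Helper40.Gpc.Decomp
import Pool.Agent.Helper40.Gpc.Pos
import Pool.Agent.Helper40.Gpc.DefsG

/-!
Components of forms on the powers of an abelian variety.
-/

open scoped ComplexConjugate

namespace Pool.Agent.Helper40.Gpc

open Module Pool.Agent.Helper7 Pool.Agent.GPC

variable (A : AbVar)

/-- embedding of a factor -/
def slot (n : ℕ) (j : Fin n) : A.H1 →ₗ[ℂ] H1 (fun _ : Unit => A) (fun _ => n) :=
  LinearMap.pi fun _ => LinearMap.single ℂ (fun _ : Fin n => A.H1) j

lemma slot_apply {n : ℕ} (j : Fin n) (x : A.H1) (i : Unit) (m : Fin n) :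
    slot A n j x i m = if m = j then x else 0 := by
  change (Pi.single j x : Fin n → A.H1) m = _
  by_cases h : m = j
  · subst h; rw [Pi.single_eq_same, if_pos rfl]
  · rw [Pi.single_eq_of_ne h, if_neg h]

lemma sum_slot' {n : ℕ} (v : H1 (fun _ : Unit => A) (fun _ => n)) :
    ∑ j, slot A n j (v () j) = v := by
  funext i m
  rw [Finset.sum_apply, Finset.sum_apply, Finset.sum_eq_single m]
  · rw [slot_apply, if_pos rfl]
  · intro j _ hj
    rw [slot_apply, if_neg (Ne.symm hj)]
  · intro h; exact absurd (Finset.mem_univ _) h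

/-- component of a form -/
noncomputable def comp {n k : ℕ} (α : PowForm A n (2 * k)) (s : Fin (2 * k) → Fin n) :
    TForm (Fin A.g ⊕ Fin A.g) k :=
  α.toMultilinearMap.compLinearMap (fun r => slot A n (s r))

lemma comp_apply {n k : ℕ} (α : PowForm A n (2 * k)) (s : Fin (2 * k) → Fin n)
    (v : Fin (2 * k) → A.H1) : comp A α s v = α (fun r => slot A n (s r) (v r)) := rfl

lemma expand_comp {n k : ℕ} (α : PowForm A n (2 * k))
    (v : Fin (2 * k) → H1 (fun _ : Unit => A) (fun _ => n)) :
    α v = ∑ s : Fin (2 * k) → Fin n, comp A α s (fun r => v r () (s r)) := by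
  classical
  have h1 : v = fun r => ∑ j, slot A n j (v r () j) := by
    funext r
    exact (sum_slot' A (v r)).symm
  conv_lhs => rw [h1]
  exact α.toMultilinearMap.map_sum _

lemma betti_zero : A.IsBetti 0 := ⟨1, one_ne_zero, 0, A.Λ.zero_mem, by
  rw [smul_zero, period_zero]⟩

lemma isTens_comp {n k : ℕ} (α : PowForm A n (2 * k)) (hα : IsGrothendieck _ _ k α)
    (s : Fin (2 * k) → Fin n) : IsTens (pData A) k (comp A α s) where
  alg t := by
    rw [comp_apply]
    refine hα.1 _ fun r i m => ?_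
    rw [slot_apply]
    split_ifs with h
    · exact single_deRham A _
    · intro j; exact isAlgebraic_zero
  rat v hv := by
    rw [comp_apply]
    refine hα.2 _ fun r i m => ?_
    rw [slot_apply]
    split_ifs with h
    · exact (mem_pData_Q A _).mp (hv r)
    · exact betti_zero A

lemma killed_comp {n k : ℕ} (α : PowForm A n (2 * k)) (e : A.H1 →ₗ[ℂ] A.H1)
    (h : IsKilledBy A n (2 * k) e α) (s : Fin (2 * k) → Fin n) :
    actForm e (comp A α s) = 0 := by
  apply MultilinearMap.ext
  intro v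
  rw [actForm_apply, _root_.zero_apply, ← h (fun r => slot A n (s r) (v r))]
  refine Finset.sum_congr rfl fun r _ => ?_
  rw [comp_apply]
  congr 1
  funext r'
  by_cases hr : r' = r
  · subst hr
    rw [Function.update_self, Function.update_self]
    funext i m
    rw [slot_apply, slot_apply]
    split_ifs
    · rfl
    · rw [map_zero]
  · rw [Function.update_of_ne hr, Function.update_of_ne hr]

lemma inF_comp {n k : ℕ} (α : PowForm A n (2 * k)) (h : IsHodge _ _ k α)
    (s : Fin (2 * k) → Fin n) : InF (hop A) (comp A α s) := by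
  rintro v ⟨S, hS, hv⟩
  rw [comp_apply]
  refine h _ ⟨S, hS, fun r hr i m => ?_⟩
  rw [slot_apply]
  split_ifs
  · exact (hop_minus_iff A _).mp (hv r hr)
  · intro a; rfl

lemma isHodge_of_comp {n k : ℕ} (α : PowForm A n (2 * k))
    (h : ∀ s : Fin (2 * k) → Fin n, InF (hop A) (comp A α s)) : IsHodge _ _ k α := by
  rintro v ⟨S, hS, hv⟩
  rw [expand_comp A α v]
  refine Finset.sum_eq_zero fun s _ => ?_
  exact h s _ ⟨S, hS, fun r hr => (hop_minus_iff A _).mpr (hv r hr () (s r))⟩

/-- a tensor of degree `2k` as alternating form on `A^(2k)` -/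
noncomputable def altOf (k : ℕ) (β : TForm (Fin A.g ⊕ Fin A.g) k) : PowForm A (2 * k) (2 * k) :=
  MultilinearMap.alternatization
    (β.compLinearMap (fun r => (LinearMap.proj r : (Fin (2 * k) → A.H1) →ₗ[ℂ] A.H1) ∘ₗ
      (LinearMap.proj () : H1 (fun _ : Unit => A) (fun _ => 2 * k) →ₗ[ℂ] (Fin (2 * k) → A.H1))))

lemma altOf_apply (k : ℕ) (β : TForm (Fin A.g ⊕ Fin A.g) k)
    (v : Fin (2 * k) → H1 (fun _ : Unit => A) (fun _ => 2 * k)) :
    altOf A k β v = ∑ σ : Equiv.Perm (Fin (2 * k)), Equiv.Perm.sign σ •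
      β (fun r => v (σ r) () r) := by
  rw [altOf, MultilinearMap.alternatization_apply]
  rfl

lemma comp_altOf (k : ℕ) (β : TForm (Fin A.g ⊕ Fin A.g) k) :
    comp A (altOf A k β) id = β := by
  apply MultilinearMap.ext
  intro v
  rw [comp_apply, altOf_apply, Finset.sum_eq_single 1]
  · rw [Equiv.Perm.sign_one, one_smul]
    congr 1
    funext r
    rw [slot_apply, if_pos (by rfl)]
    rfl
  · intro σ _ hσ
    have h1 : ∃ r, σ r ≠ r := by
      by_contra h
      push Not at h
      exact hσ (Equiv.ext h)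
    obtain ⟨r, hr⟩ := h1
    rw [β.map_coord_zero r, smul_zero]
    rw [slot_apply]
    exact if_neg fun h => hr h.symm
  · intro h; exact absurd (Finset.mem_univ _) h

lemma alg_of_isTens {k : ℕ} {β : TForm (Fin A.g ⊕ Fin A.g) k} (hβ : IsTens (pData A) k β)
    (v : Fin (2 * k) → A.H1) (hv : ∀ r, A.IsDeRham (v r)) : IsAlgebraic ℚ (β v) := by
  classical
  have h1 : v = fun r => ∑ j, v r j • (Pi.single j (1 : ℂ) : A.H1) := by
    funext r i
    simp [Finset.sum_apply, Pi.single_apply]
  rw [h1, β.map_sum]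
  refine isAlg_sum _ _ fun s _ => ?_
  rw [β.map_smul_univ, smul_eq_mul]
  exact (isAlg_prod _ _ fun r _ => hv r (s r)).mul (hβ.alg s)

lemma isGrothendieck_altOf {k : ℕ} {β : TForm (Fin A.g ⊕ Fin A.g) k}
    (hβ : IsTens (pData A) k β) : IsGrothendieck _ _ k (altOf A k β) := by
  constructor
  · intro v hv
    rw [altOf_apply]
    refine isAlg_sum _ _ fun σ _ => ?_
    rw [Units.smul_def, zsmul_eq_mul]
    exact (isAlgebraic_intCast _).mul (alg_of_isTens A hβ _ fun r => hv (σ r) () r)
  · intro v hv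
    have h1 : ∀ σ : Equiv.Perm (Fin (2 * k)), ∃ q : ℚ, β (fun r => v (σ r) () r) =
        (2 * Real.pi * Complex.I) ^ k * q := fun σ =>
      hβ.rat _ fun r => (mem_pData_Q A _).mpr (hv (σ r) () r)
    choose q hq using h1
    refine ⟨∑ σ : Equiv.Perm (Fin (2 * k)), ((Equiv.Perm.sign σ : ℤ) : ℚ) * q σ, ?_⟩
    rw [altOf_apply]
    push_cast
    rw [Finset.mul_sum]
    refine Finset.sum_congr rfl fun σ _ => ?_
    rw [hq, Units.smul_def, zsmul_eq_mul]
    ring

lemma killed_altOf {k : ℕ} {β : TForm (Fin A.g ⊕ Fin A.g) k} (e : A.H1 →ₗ[ℂ] A.H1)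
    (h : actForm e β = 0) : IsKilledBy A (2 * k) (2 * k) e (altOf A k β) := by
  intro v
  simp only [altOf_apply]
  rw [Finset.sum_comm]
  refine Finset.sum_eq_zero fun σ _ => ?_
  rw [← Finset.smul_sum]
  have h1 : ∑ r, β (fun r' => Function.update v r (fun i j => e (v r i j)) (σ r') () r') =
      actForm e β (fun r => v (σ r) () r) := by
    rw [actForm_apply, ← Equiv.sum_comp σ]
    refine Finset.sum_congr rfl fun r _ => ?_
    congr 1
    funext r'
    by_cases hr : r' = r
    · subst hr
      rw [Function.update_self, Function.update_self]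
    · rw [Function.update_of_ne hr, Function.update_of_ne (fun h => hr (σ.injective h))]
  rw [h1, h, _root_.zero_apply, smul_zero]

end Pool.Agent.Helper40.Gpc
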