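import Mathlib

/-!
Dual bases for the trace form on a space of endomorphisms.
-/

namespace Pool.Agent.Helper40.Gpc

open Module

lemma exists_dual_aux {V : Type*} [AddCommGroup V] [Module ℚ V] [FiniteDimensional ℚ V]
    (D : Submodule ℚ (Module.End ℚ V))
    (hD : ∀ z ∈ D, (∀ w ∈ D, LinearMap.trace ℚ V (z * w) = 0) → z = 0) :
    ∃ (m : ℕ) (x x' : Fin m → Module.End ℚ V), (∀ i, x i ∈ D) ∧
    (∀ i, x' i ∈ D) ∧
    (∀ z ∈ D, z = ∑ i, LinearMap.trace ℚ V (x' i * z) • x i) ∧
    (∀ z ∈ D, z = ∑ i, LinearMap.trace ℚ V (z * x i) • x' i) ∧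
    (∀ i j, LinearMap.trace ℚ V (x' i * x j) = if j = i then 1 else 0) := by
  classical
  let B : LinearMap.BilinForm ℚ D := LinearMap.mk₂ ℚ
    (fun z w => LinearMap.trace ℚ V ((z : Module.End ℚ V) * (w : Module.End ℚ V)))
    (fun z z' w => by rw [Submodule.coe_add, add_mul, map_add])
    (fun c z w => by rw [Submodule.coe_smul, smul_mul_assoc, map_smul])
    (fun z w w' => by rw [Submodule.coe_add, mul_add, map_add])
    (fun c z w => by rw [Submodule.coe_smul, mul_smul_comm, map_smul])
  have hBn : B.Nondegenerate := by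
    constructor
    · rintro ⟨z, hz⟩ h
      apply Subtype.ext
      exact hD z hz (fun w hw => h ⟨w, hw⟩)
    · rintro ⟨z, hz⟩ h
      apply Subtype.ext
      refine hD z hz (fun w hw => ?_)
      rw [LinearMap.trace_mul_comm]
      exact h ⟨w, hw⟩
  let b := finBasis ℚ D
  let b' := B.dualBasis hBn b
  have hbb : ∀ i j, B (b' i) (b j) = if j = i then 1 else 0 := fun i j =>
    B.apply_dualBasis_left hBn b i j
  refine ⟨finrank ℚ D, fun i => b i, fun i => b' i, fun i => (b i).2, fun i => (b' i).2,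
    fun z hz => ?_, fun z hz => ?_, fun i j => ?_⟩
  · have h1 : ∀ i, LinearMap.trace ℚ V ((b' i : Module.End ℚ V) * z) =
        b.repr ⟨z, hz⟩ i := by
      intro i
      have h2 : LinearMap.trace ℚ V ((b' i : Module.End ℚ V) * z) = B (b' i) ⟨z, hz⟩ := rfl
      rw [h2]
      conv_lhs => rw [← b.sum_repr ⟨z, hz⟩, map_sum]
      simp only [map_smul, hbb, smul_eq_mul, mul_ite, mul_one, mul_zero]
      rw [Finset.sum_ite_eq' Finset.univ i, if_pos (Finset.mem_univ i)]
    have h3 := congrArg Subtype.val (b.sum_repr ⟨z, hz⟩)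
    rw [AddSubmonoidClass.coe_finsetSum] at h3
    simp only [h1]
    exact h3.symm
  · have h1 : ∀ i, LinearMap.trace ℚ V (z * (b i : Module.End ℚ V)) =
        b'.repr ⟨z, hz⟩ i := by
      intro i
      exact (B.dualBasis_repr_apply hBn b ⟨z, hz⟩ i).symm
    have h3 := congrArg Subtype.val (b'.sum_repr ⟨z, hz⟩)
    rw [AddSubmonoidClass.coe_finsetSum] at h3
    simp only [h1]
    exact h3.symm
  · exact hbb i j

end Pool.Agent.Helper40.Gpc

namespace Pool.Agent.Helper40.Gpc

open Module

section aux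

variable {V : Type*} [AddCommGroup V] [Module ℚ V]

lemma trace_aux (x x' y : Module.End ℚ V) : LinearMap.trace ℚ V ((x' * y - y * x') * x) +
    LinearMap.trace ℚ V (x' * (x * y - y * x)) = 0 := by
  rw [← map_add]
  have e6 : (x' * y - y * x') * x + x' * (x * y - y * x) = (x' * x) * y - y * (x' * x) := by
    noncomm_ring
  rw [e6, map_sub, LinearMap.trace_mul_comm, sub_self]

lemma mem_of_add_eq_zero (D : Submodule ℚ (Module.End ℚ V)) {S A : Module.End ℚ V} (hS : S ∈ D)
    (h : S + A = 0) : A ∈ D := by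
  have h1 : A = -S := by
    rw [eq_neg_iff_add_eq_zero, add_comm]; exact h
  rw [h1]
  exact D.neg_mem hS

lemma mem_normal_aux (D : Submodule ℚ (Module.End ℚ V)) {m : ℕ} (x : Fin m → Module.End ℚ V)
    (a : Fin m → ℚ) (y z : Module.End ℚ V) (hz : z = ∑ i, a i • x i)
    (h : ∀ i, x i * y - y * x i ∈ D) : y * z - z * y ∈ D := by
  have e7 : y * z - z * y = - ∑ i, a i • (x i * y - y * x i) := by
    rw [hz, Finset.sum_mul, Finset.mul_sum]
    simp only [smul_sub, Finset.sum_sub_distrib, neg_sub, smul_mul_assoc, mul_smul_comm]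
  rw [e7]
  exact D.neg_mem (D.sum_mem fun i _ => D.smul_mem _ (h i))

lemma trace_bracket_mul (a b e : Module.End ℚ V) (hb : a * e = e * a) :
    LinearMap.trace ℚ V ((a * b - b * a) * e) = 0 := by
  rw [sub_mul, map_sub, mul_assoc b a e, hb, ← mul_assoc b e a, LinearMap.trace_mul_comm (M := V) _ (b * e) a]
  rw [← mul_assoc, sub_self]

end aux

end Pool.Agent.Helper40.Gpc

namespace Pool.Agent.Helper40.Gpc

open Module

section aux

variable {V : Type*} [AddCommGroup V] [Module ℚ V]

lemma deriv_aux (h x y : Module.End ℚ V) : h * (x * y - y * x) - (x * y - y * x) * h =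
    (h * x - x * h) * y - y * (h * x - x * h) + (x * (h * y - y * h) - (h * y - y * h) * x) := by
  noncomm_ring

lemma add_aux (h x y : Module.End ℚ V) : h * (x + y) - (x + y) * h =
    (h * x - x * h) + (h * y - y * h) := by
  noncomm_ring

lemma smul_aux (q : ℚ) (h x : Module.End ℚ V) : h * (q • x) - (q • x) * h =
    q • (h * x - x * h) := by
  rw [mul_smul_comm, smul_mul_assoc, smul_sub]

lemma comm_aux {h y x : Module.End ℚ V} (e : h * x - x * h = y * x - x * y) :
    (h - y) * x = x * (h - y) := by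
  rw [sub_mul, mul_sub, sub_eq_sub_iff_add_eq_add]
  rw [sub_eq_sub_iff_add_eq_add] at e
  rw [e, add_comm]

lemma comm_aux2 {h y x : Module.End ℚ V} (e : h * x = x * h) (e' : y * x = x * y) :
    (h - y) * x = x * (h - y) := by
  rw [sub_mul, mul_sub, e, e']

lemma comm_aux3 {z d w : Module.End ℚ V} (e : z * d = d * z) (e' : z * w = w * z) :
    z * (d + w) = (d + w) * z := by
  rw [mul_add, add_mul, e, e']

lemma trace_span_aux (S : Set (Module.End ℚ V)) (e z : Module.End ℚ V)
    (hS : ∀ a ∈ S, a * e = e * a)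
    (hz : z ∈ Submodule.span ℚ {t | ∃ a ∈ S, ∃ b ∈ S, t = a * b - b * a}) :
    LinearMap.trace ℚ V (z * e) = 0 := by
  induction hz using Submodule.span_induction with
  | mem t ht =>
    obtain ⟨a, ha, b, hb, rfl⟩ := ht
    exact trace_bracket_mul a b e (hS a ha)
  | zero => rw [zero_mul, map_zero]
  | add s t _ _ hs ht => rw [add_mul, map_add, hs, ht, add_zero]
  | smul q s _ hs => rw [smul_mul_assoc, map_smul, hs, smul_zero]

lemma trace_sub_aux {h y e : Module.End ℚ V} (h1 : LinearMap.trace ℚ V (h * e) = 0)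
    (h2 : LinearMap.trace ℚ V (y * e) = 0) : LinearMap.trace ℚ V ((h - y) * e) = 0 := by
  rw [sub_mul, map_sub, h1, h2, sub_zero]

end aux

end Pool.Agent.Helper40.Gpc
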