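import Pool.Agent.Helper40.Gpc.LieK

/-!
Lie algebras over a field of characteristic zero with a faithful completely reducible
representation: the derived algebra has trivial radical and is complemented by the centre; the
trace form is non-degenerate on the derived algebra.
-/

namespace Pool.Agent.Helper40.Gpc

open LieAlgebra LieModule Module

attribute [local instance 100] LieRing.ofAssociativeRing

section tf

variable {K : Type*} [Field K] [CharZero K] {L : Type*} [LieRing L] [LieAlgebra K L]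
  [FiniteDimensional K L] [HasTrivialRadical K L]

lemma ideal_perfect (I : LieIdeal K L) : ⁅I, I⁆ = I := by
  have : IsKilling K L := inferInstance
  have : IsSemisimple K L := inferInstance
  obtain ⟨C, hC⟩ := exists_isCompl (⁅I, I⁆ : LieIdeal K L)
  have hle : ⁅I, I⁆ ≤ I := LieSubmodule.lie_le_right I I
  have h1 : ⁅(I ⊓ C : LieIdeal K L), (I ⊓ C : LieIdeal K L)⁆ = ⊥ := by
    rw [eq_bot_iff, ← hC.inf_eq_bot, le_inf_iff]
    exact ⟨LieSubmodule.mono_lie inf_le_left inf_le_left,
      (LieSubmodule.lie_le_right _ _).trans inf_le_right⟩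
  have h2 : (I ⊓ C : LieIdeal K L) = ⊥ := by
    have : IsLieAbelian (I ⊓ C : LieIdeal K L) :=
      (LieSubmodule.lie_abelian_iff_lie_self_eq_bot _).mpr h1
    exact HasTrivialRadical.eq_bot_of_isSolvable _
  have h3 : I = ⁅I, I⁆ ⊔ (I ⊓ C) := by
    rw [inf_comm, ← sup_inf_assoc_of_le C hle, hC.sup_eq_top, top_inf_eq]
  rw [h2, sup_bot_eq] at h3
  exact h3.symm

variable {M : Type*} [AddCommGroup M] [Module K M] [LieRingModule L M] [LieModule K L M]
  [FiniteDimensional K M]

omit [CharZero K] [FiniteDimensional K L] [HasTrivialRadical K L] [FiniteDimensional K M] in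
lemma hspan (I : LieIdeal K L) (N : LieSubmodule K L M) (y : M)
    (hy : y ∈ (⁅I, N⁆ : LieSubmodule K L M)) :
    y ∈ Submodule.span K {m : M | ∃ x ∈ I, ∃ n ∈ N, ⁅x, n⁆ = m} := by
  rw [← LieSubmodule.mem_toSubmodule, LieSubmodule.lieIdeal_oper_eq_linear_span'] at hy
  exact hy

/-- an ideal on which the trace form vanishes acts trivially -/
lemma ideal_acts_trivially (I : LieIdeal K L)
    (h : ∀ x ∈ I, ∀ y ∈ I, traceForm K L M x y = 0) (x : L) (hx : x ∈ I) (m : M) :
    ⁅x, m⁆ = 0 := by
  have h1 : traceForm K I M = 0 := by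
    ext x y
    exact h x x.2 y y.2
  have h2 := isNilpotent_derivedSeries_of_traceForm_eq_zero h1
  have hD : ∀ y : I, y ∈ derivedSeries K I 1 := by
    intro y
    rw [LieIdeal.derivedSeries_eq_derivedSeriesOfIdeal_comap, LieIdeal.mem_comap,
      derivedSeriesOfIdeal_succ, derivedSeriesOfIdeal_zero, ideal_perfect]
    exact y.2
  obtain ⟨k, hk⟩ := (LieModule.isNilpotent_iff K (derivedSeries K I 1) M).mp h2
  have h3 : (⁅I, (⊤ : LieSubmodule K L M)⁆ : LieSubmodule K L M) ≤
      ⁅I, (⁅I, (⊤ : LieSubmodule K L M)⁆ : LieSubmodule K L M)⁆ := by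
    conv_lhs => rw [← ideal_perfect I]
    rw [LieSubmodule.lieIdeal_oper_eq_span, LieSubmodule.lieSpan_le]
    rintro _ ⟨⟨y, hy⟩, ⟨m, -⟩, rfl⟩
    have hy' := hspan I I y hy
    show ⁅y, m⁆ ∈ (⁅I, (⁅I, (⊤ : LieSubmodule K L M)⁆ : LieSubmodule K L M)⁆ : LieSubmodule K L M)
    clear hy
    induction hy' using Submodule.span_induction with
    | mem y hy =>
      obtain ⟨a, ha, b, hb, rfl⟩ := hy
      rw [lie_lie]
      refine sub_mem ?_ ?_
      · exact LieSubmodule.lie_mem_lie ha (LieSubmodule.lie_mem_lie hb (LieSubmodule.mem_top m))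
      · exact LieSubmodule.lie_mem_lie hb (LieSubmodule.lie_mem_lie ha (LieSubmodule.mem_top m))
    | zero => rw [zero_lie]; exact zero_mem _
    | add a b _ _ ha hb => rw [add_lie]; exact add_mem ha hb
    | smul c a _ ha => rw [smul_lie]; exact SMulMemClass.smul_mem c ha
  have h4 : ∀ k, ∀ n ∈ (⁅I, (⊤ : LieSubmodule K L M)⁆ : LieSubmodule K L M),
      n ∈ LieModule.lowerCentralSeries K (derivedSeries K I 1) M k := by
    intro k
    induction k with
    | zero => intro n _; simp
    | succ k ih =>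
      intro n hn
      have hn' := hspan I _ n (h3 hn)
      rw [LieModule.lowerCentralSeries_succ]
      refine (Submodule.span_le (p := (⁅(⊤ : LieIdeal K (derivedSeries K I 1)),
        LieModule.lowerCentralSeries K (derivedSeries K I 1) M k⁆ :
          LieSubmodule K (derivedSeries K I 1) M).toSubmodule)).mpr ?_ hn'
      rintro _ ⟨a, ha, b, hb, rfl⟩
      exact LieSubmodule.lie_mem_lie
          (LieSubmodule.mem_top (⟨⟨a, ha⟩, hD ⟨a, ha⟩⟩ : derivedSeries K I 1)) (ih b hb)
  have h5 := h4 k ⁅x, m⁆ (LieSubmodule.lie_mem_lie hx (LieSubmodule.mem_top m))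
  rw [hk] at h5
  exact (LieSubmodule.mem_bot _).mp h5

/-- elements orthogonal to everything for the trace form act trivially -/
lemma acts_trivially (x : L) (h : ∀ y, traceForm K L M x y = 0) (m : M) : ⁅x, m⁆ = 0 := by
  let I : LieIdeal K L := InvariantForm.orthogonal (traceForm K L M)
    (traceForm_lieInvariant K L M) ⊤
  have hI : ∀ x, x ∈ I ↔ ∀ y, traceForm K L M x y = 0 := by
    intro x
    rw [InvariantForm.mem_orthogonal]
    constructor
    · intro h y; rw [traceForm_comm]; exact h y (LieSubmodule.mem_top y)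
    · intro h y _; rw [traceForm_comm]; exact h y
  exact ideal_acts_trivially I (fun x hx y _ => (hI x).mp hx y) x ((hI x).mpr h) m

end tf

section red

variable {K : Type*} [Field K] [CharZero K] {g : Type*} [LieRing g]
  [LieAlgebra K g] [FiniteDimensional K g] (M : Type*) [AddCommGroup M] [Module K M]
  [LieRingModule g M] [LieModule K g M] [FiniteDimensional K M]

/-- the vectors killed by an ideal -/
def killedBy (I : LieIdeal K g) : LieSubmodule K g M where
  carrier := {m | ∀ x ∈ I, ⁅x, m⁆ = 0}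
  add_mem' ha hb x hx := by rw [lie_add, ha x hx, hb x hx, add_zero]
  zero_mem' x _ := lie_zero x
  smul_mem' c m hm x hx := by rw [lie_smul, hm x hx, smul_zero]
  lie_mem {y m} hm x hx := by
    rw [leibniz_lie, hm x hx, lie_zero, add_zero]
    exact hm _ (lie_mem_left K g I x y hx)

variable (K g) in
/-- The radical meets the derived algebra trivially. -/
theorem radical_inf_derived (hM : ∀ x : g, (∀ m : M, ⁅x, m⁆ = 0) → x = 0)
    (hc : ∀ N : LieSubmodule K g M, ∃ N' : LieSubmodule K g M, IsCompl N N') :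
    radical K g ⊓ derivedSeries K g 1 = ⊥ := by
  set n : LieIdeal K g := radical K g ⊓ derivedSeries K g 1 with hn
  obtain ⟨W, hW⟩ := hc (killedBy M n)
  have hWbot : W = ⊥ := by
    by_contra hne
    have hnt : Nontrivial W := (LieSubmodule.nontrivial_iff_ne_bot K g M).mpr hne
    have hnil : LieModule.IsNilpotent n W := by
      rw [LieModule.isNilpotent_iff_forall' (R := K)]
      rintro ⟨x, hx⟩
      obtain ⟨k, hk⟩ := nilp_of_solvable' (radical K g) x hx.1 hx.2 W
      exact ⟨k, hk⟩
    have h1 := nontrivial_max_triv_of_isNilpotent K n W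
    obtain ⟨⟨w, hw⟩, hw0⟩ := exists_ne (0 : maxTrivSubmodule K n W)
    rw [mem_maxTrivSubmodule] at hw
    have h2 : (w : M) ∈ killedBy M n := by
      intro x hx
      exact congrArg Subtype.val (hw ⟨x, hx⟩)
    have h3 : (w : M) ∈ (killedBy M n ⊓ W : LieSubmodule K g M) := ⟨h2, w.2⟩
    rw [hW.inf_eq_bot, LieSubmodule.mem_bot] at h3
    apply hw0
    apply Subtype.ext
    exact Subtype.ext h3
  have htop : killedBy M n = ⊤ := by
    have := hW.sup_eq_top
    rwa [hWbot, sup_bot_eq] at this
  rw [LieSubmodule.eq_bot_iff]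
  intro x hx
  apply hM
  intro m
  have : m ∈ killedBy M n := by rw [htop]; exact LieSubmodule.mem_top m
  exact this x hx

variable (hM : ∀ x : g, (∀ m : M, ⁅x, m⁆ = 0) → x = 0)
    (hc : ∀ N : LieSubmodule K g M, ∃ N' : LieSubmodule K g M, IsCompl N N')

omit [CharZero K] [FiniteDimensional K g] in
lemma lie_mem_derived (x y : g) : ⁅x, y⁆ ∈ derivedSeries K g 1 := by
  rw [derivedSeries_def, derivedSeriesOfIdeal_succ, derivedSeriesOfIdeal_zero]
  exact LieSubmodule.lie_mem_lie (LieSubmodule.mem_top x) (LieSubmodule.mem_top y)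

include hM hc in
/-- The radical is central. -/
theorem radical_central (x : g) (hx : x ∈ radical K g) (y : g) : ⁅y, x⁆ = 0 := by
  have h1 : ⁅y, x⁆ ∈ radical K g ⊓ derivedSeries K g 1 :=
    ⟨lie_mem_right K g (radical K g) y x hx, lie_mem_derived y x⟩
  rw [radical_inf_derived K g M hM hc] at h1
  exact (LieSubmodule.mem_bot _).mp h1

include hM hc in
/-- Every element is the sum of an element of the derived algebra and a central one. -/
theorem exists_derived_add_central (x : g) :
    ∃ d ∈ derivedSeries K g 1, ∃ z : g, (∀ y : g, ⁅y, z⁆ = 0) ∧ x = d + z := by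
  set D : LieIdeal K g := derivedSeries K g 1 with hD
  have h1 : ∀ x ∈ D.killingCompl, x ∈ radical K g := by
    intro x hx
    have h2 : ∀ b : g, ⁅b, x⁆ = 0 := by
      intro b
      have h3 : ⁅b, x⁆ ∈ radical K g := by
        apply killingCompl_top_le_radical K g
        rw [LieIdeal.mem_killingCompl]
        intro a _
        have h4 := (LieIdeal.mem_killingCompl K g D).mp hx ⁅a, b⁆ (lie_mem_derived a b)
        rwa [traceForm_apply_lie_apply] at h4
      have h5 : ⁅b, x⁆ ∈ radical K g ⊓ derivedSeries K g 1 := ⟨h3, lie_mem_derived b x⟩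
      rw [radical_inf_derived K g M hM hc] at h5
      exact (LieSubmodule.mem_bot _).mp h5
    apply center_le_radical K g
    exact (mem_maxTrivSubmodule K g g x).mpr h2
  have h2 : D.toSubmodule ⊓ D.killingCompl.toSubmodule = ⊥ := by
    rw [eq_bot_iff]
    rintro y ⟨hy1, hy2⟩
    have h3 : y ∈ radical K g ⊓ derivedSeries K g 1 := ⟨h1 y hy2, hy1⟩
    rw [radical_inf_derived K g M hM hc] at h3
    exact h3
  have h3 : D.toSubmodule ⊔ D.killingCompl.toSubmodule = ⊤ := by
    apply Submodule.eq_top_of_finrank_eq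
    apply le_antisymm (Submodule.finrank_le _)
    have h4 := Submodule.finrank_sup_add_finrank_inf_eq D.toSubmodule D.killingCompl.toSubmodule
    rw [h2, finrank_bot, add_zero] at h4
    rw [h4, LieIdeal.toSubmodule_killingCompl]
    have h5 := LinearMap.BilinForm.finrank_add_finrank_orthogonal' (B := killingForm K g)
      D.toSubmodule
    omega
  have h4 : x ∈ D.toSubmodule ⊔ D.killingCompl.toSubmodule := by rw [h3]; trivial
  obtain ⟨d, hd, z, hz, hx⟩ := Submodule.mem_sup.mp h4
  exact ⟨d, hd, z, fun y => radical_central M hM hc z (h1 z hz) y, hx.symm⟩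

include hM hc in
/-- The derived algebra has trivial radical. -/
theorem derived_trivialRadical : HasTrivialRadical K (derivedSeries K g 1) := by
  set D : LieIdeal K g := derivedSeries K g 1 with hD
  rw [hasTrivialRadical_iff_no_abelian_ideals]
  intro I hI
  let I' : LieIdeal K g :=
    { carrier := {x | ∃ h : x ∈ D, (⟨x, h⟩ : D) ∈ I}
      add_mem' := by
        rintro a b ⟨ha, ha'⟩ ⟨hb, hb'⟩
        exact ⟨D.add_mem ha hb, I.add_mem ha' hb'⟩
      zero_mem' := ⟨D.zero_mem, I.zero_mem⟩
      smul_mem' := by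
        rintro c a ⟨ha, ha'⟩
        exact ⟨D.smul_mem c ha, I.smul_mem c ha'⟩
      lie_mem := by
        rintro y a ⟨ha, ha'⟩
        obtain ⟨d, hd, z, hz, rfl⟩ := exists_derived_add_central M hM hc y
        have h1 : ⁅d + z, a⁆ = ⁅d, a⁆ := by
          rw [add_lie, ← lie_skew z a, hz a, neg_zero, add_zero]
        change ∃ h : ⁅d + z, a⁆ ∈ D, (⟨⁅d + z, a⁆, h⟩ : D) ∈ I
        simp only [h1]
        exact ⟨lie_mem_right K g D d a ha, lie_mem_right K D I ⟨d, hd⟩ ⟨a, ha⟩ ha'⟩ }
  have hmem : ∀ x : g, x ∈ I' ↔ ∃ h : x ∈ D, (⟨x, h⟩ : D) ∈ I := fun x => Iff.rfl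
  have habel : IsLieAbelian I' := by
    refine ⟨fun a b => Subtype.ext ?_⟩
    obtain ⟨a, ha⟩ := a
    obtain ⟨b, hb⟩ := b
    obtain ⟨ha1, ha2⟩ := (hmem a).mp ha
    obtain ⟨hb1, hb2⟩ := (hmem b).mp hb
    have h1 := hI.trivial (⟨⟨a, ha1⟩, ha2⟩ : I) (⟨⟨b, hb1⟩, hb2⟩ : I)
    have h2 := congrArg (fun t : I => ((t : D) : g)) h1
    exact h2
  have hle : I' ≤ radical K g := (LieIdeal.solvable_iff_le_radical K g I').mp inferInstance
  rw [LieSubmodule.eq_bot_iff]
  rintro ⟨x, hx⟩ hxI
  have h1 : x ∈ radical K g ⊓ derivedSeries K g 1 := ⟨hle ((hmem x).mpr ⟨hx, hxI⟩), hx⟩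
  rw [radical_inf_derived K g M hM hc] at h1
  exact Subtype.ext ((LieSubmodule.mem_bot _).mp h1)

include hM hc in
/-- The trace form is non-degenerate on the derived algebra. -/
theorem derived_traceForm (x : g) (hx : x ∈ derivedSeries K g 1)
    (h : ∀ y ∈ derivedSeries K g 1, traceForm K g M x y = 0) : x = 0 := by
  have := derived_trivialRadical M hM hc
  apply hM
  intro m
  exact acts_trivially (K := K) (L := derivedSeries K g 1) (M := M) ⟨x, hx⟩
    (fun y => h y y.2) m

include hM hc in
/-- Derivations of the derived algebra are inner. -/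
theorem derived_inner (T : derivedSeries K g 1 →ₗ[K] derivedSeries K g 1)
    (h2 : ∀ x y, T ⁅x, y⁆ = ⁅T x, y⁆ + ⁅x, T y⁆) :
    ∃ y : derivedSeries K g 1, ∀ x, T x = ⁅y, x⁆ := by
  have := derived_trivialRadical M hM hc
  let T' : LieDerivation K (derivedSeries K g 1) (derivedSeries K g 1) :=
    { toLinearMap := T
      leibniz' := by
        intro a b
        change T ⁅a, b⁆ = ⁅a, T b⁆ - ⁅b, T a⁆
        rw [h2 a b, ← lie_skew (T a) b]
        abel }
  obtain ⟨y, hyT⟩ := LieDerivation.IsKilling.exists_eq_ad T'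
  refine ⟨y, fun x => ?_⟩
  have h3 := congrArg (fun f : LieDerivation K (derivedSeries K g 1) (derivedSeries K g 1) =>
    f x) hyT
  have e1 : T' x = T x := rfl
  have e2 : LieDerivation.ad K (derivedSeries K g 1) y x = ⁅y, x⁆ :=
    LieDerivation.ad_apply_apply _ _ _ _
  rw [← e1, ← e2]
  exact h3.symm

end red

end Pool.Agent.Helper40.Gpc
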