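import Pool.Agent.Helper40.Gpc.Gro2
import Pool.Agent.Helper40.Gpc.LieRed
import Pool.Agent.Helper40.Gpc.Dual

/-!
The derived algebra of the rational Lie algebra of symmetries.
-/

namespace Pool.Agent.Helper40.Gpc

open Module Pool.Agent.Helper7 LieAlgebra

attribute [local instance 100] LieRing.ofAssociativeRing

variable {κ : Type} [Fintype κ] [DecidableEq κ] {ϖ : ℂ} (P : PData κ ϖ)

instance : FiniteDimensional ℚ (GQ P) :=
  inferInstanceAs (FiniteDimensional ℚ (GQ P).toSubmodule)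

/-- the derived algebra, as space of endomorphisms -/
noncomputable def DQ : Submodule ℚ (Module.End ℚ P.Q) :=
  (derivedSeries ℚ (GQ P) 1).toSubmodule.map (GQ P).toSubmodule.subtype

lemma mem_DQ {z : Module.End ℚ P.Q} :
    z ∈ DQ P ↔ ∃ h : z ∈ GQ P, (⟨z, h⟩ : GQ P) ∈ derivedSeries ℚ (GQ P) 1 := by
  constructor
  · rintro ⟨⟨w, hw⟩, hw', rfl⟩
    exact ⟨hw, hw'⟩
  · rintro ⟨h, h'⟩
    exact ⟨⟨z, h⟩, h', rfl⟩

lemma DQ_le {z : Module.End ℚ P.Q} (hz : z ∈ DQ P) : z ∈ GQ P := ((mem_DQ P).mp hz).1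

lemma DQ_lie {y z : Module.End ℚ P.Q} (hy : y ∈ GQ P) (hz : z ∈ GQ P) :
    y * z - z * y ∈ DQ P :=
  (mem_DQ P).mpr ⟨(GQ P).lie_mem hy hz, lie_mem_derived (⟨y, hy⟩ : GQ P) ⟨z, hz⟩⟩

/-- the derived algebra is spanned by brackets -/
lemma DQ_span {z : Module.End ℚ P.Q} (hz : z ∈ DQ P) :
    z ∈ Submodule.span ℚ {t | ∃ a ∈ GQ P, ∃ b ∈ GQ P, t = a * b - b * a} := by
  obtain ⟨w, hw', rfl⟩ := hz
  have h1 : w ∈ (derivedSeries ℚ (GQ P) 1) := hw'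
  clear hw'
  rw [derivedSeries_def, derivedSeriesOfIdeal_succ, derivedSeriesOfIdeal_zero,
    ← LieSubmodule.mem_toSubmodule, LieSubmodule.lieIdeal_oper_eq_linear_span'] at h1
  induction h1 using Submodule.span_induction with
  | mem y hy =>
    obtain ⟨a, -, b, -, rfl⟩ := hy
    exact Submodule.subset_span ⟨a, a.2, b, b.2, rfl⟩
  | zero => exact Submodule.zero_mem _
  | add a b _ _ ha hb =>
    rw [map_add]
    exact Submodule.add_mem _ ha hb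
  | smul c a _ ha => rw [map_smul]; exact Submodule.smul_mem _ _ ha

variable (hϖ : ϖ ≠ 0) (hnd : HNd P)

include hϖ hnd in
lemma DQ_nondeg {z : Module.End ℚ P.Q} (hz : z ∈ DQ P)
    (h : ∀ w ∈ DQ P, LinearMap.trace ℚ P.Q (z * w) = 0) : z = 0 := by
  obtain ⟨hz1, hz2⟩ := (mem_DQ P).mp hz
  have h1 := derived_traceForm (K := ℚ) (g := GQ P) P.Q (faithful P) (exists_compl P hϖ hnd)
    ⟨z, hz1⟩ hz2 (by
      rintro ⟨w, hw⟩ hw'
      exact h w ((mem_DQ P).mpr ⟨hw, hw'⟩))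
  exact congrArg Subtype.val h1

include hϖ hnd in
lemma GQ_decomp {y : Module.End ℚ P.Q} (hy : y ∈ GQ P) :
    ∃ d ∈ DQ P, ∃ w ∈ GQ P, (∀ x ∈ GQ P, x * w = w * x) ∧ y = d + w := by
  obtain ⟨d, hd, w, hw, hyd⟩ := exists_derived_add_central (K := ℚ) (g := GQ P) P.Q (faithful P)
    (exists_compl P hϖ hnd) ⟨y, hy⟩
  refine ⟨d, (mem_DQ P).mpr ⟨d.2, hd⟩, w, w.2, fun x hx => ?_, congrArg Subtype.val hyd⟩
  have h1 := congrArg Subtype.val (hw ⟨x, hx⟩)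
  exact sub_eq_zero.mp h1

include hϖ hnd in
lemma DQ_inner (T : Module.End ℚ P.Q → Module.End ℚ P.Q) (h1 : ∀ x ∈ DQ P, T x ∈ DQ P)
    (hadd : ∀ x y, T (x + y) = T x + T y) (hsmul : ∀ (q : ℚ) x, T (q • x) = q • T x)
    (h2 : ∀ x ∈ DQ P, ∀ y ∈ DQ P, T (x * y - y * x) = T x * y - y * T x + (x * T y - T y * x)) :
    ∃ y ∈ DQ P, ∀ x ∈ DQ P, T x = y * x - x * y := by
  have hmem : ∀ x : derivedSeries ℚ (GQ P) 1, ((x : GQ P) : Module.End ℚ P.Q) ∈ DQ P :=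
    fun x => (mem_DQ P).mpr ⟨(x : GQ P).2, x.2⟩
  let T' : derivedSeries ℚ (GQ P) 1 →ₗ[ℚ] derivedSeries ℚ (GQ P) 1 :=
    { toFun := fun x => ⟨⟨T x, DQ_le P (h1 _ (hmem x))⟩, ((mem_DQ P).mp (h1 _ (hmem x))).2⟩
      map_add' := fun x y => Subtype.ext (Subtype.ext (hadd _ _))
      map_smul' := fun q x => Subtype.ext (Subtype.ext (hsmul q _)) }
  obtain ⟨y, hy⟩ := derived_inner (K := ℚ) (g := GQ P) P.Q (faithful P)
    (exists_compl P hϖ hnd) T' (fun x y => Subtype.ext (Subtype.ext (h2 _ (hmem x) _ (hmem y))))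
  refine ⟨_, hmem y, fun x hx => ?_⟩
  obtain ⟨hx1, hx2⟩ := (mem_DQ P).mp hx
  have h3 := congrArg (fun t : derivedSeries ℚ (GQ P) 1 => ((t : GQ P) : Module.End ℚ P.Q))
    (hy ⟨⟨x, hx1⟩, hx2⟩)
  exact h3

include hϖ hnd in
/-- dual bases of the derived algebra for the trace form -/
lemma exists_dual : ∃ (m : ℕ) (x x' : Fin m → Module.End ℚ P.Q), (∀ i, x i ∈ DQ P) ∧
    (∀ i, x' i ∈ DQ P) ∧
    (∀ z ∈ DQ P, z = ∑ i, LinearMap.trace ℚ P.Q (x' i * z) • x i) ∧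
    (∀ z ∈ DQ P, z = ∑ i, LinearMap.trace ℚ P.Q (z * x i) • x' i) ∧
    (∀ i j, LinearMap.trace ℚ P.Q (x' i * x j) = if j = i then 1 else 0) :=
  exists_dual_aux (V := P.Q) (DQ P) (fun _ hz h => DQ_nondeg P hϖ hnd hz h)

end Pool.Agent.Helper40.Gpc
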