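import Pool.Agent.Helper40.Gpc.Casimir

/-!
Decomposition of an operator which kills the Grothendieck tensors of degree four.
-/

namespace Pool.Agent.Helper40.Gpc

open Module Pool.Agent.Helper7 LieAlgebra

attribute [local instance 100] LieRing.ofAssociativeRing

variable {κ : Type} [Fintype κ] [DecidableEq κ] {ϖ : ℂ} (P : PData κ ϖ)

lemma comp_comm {X : Module.End ℂ (κ → ℂ)} {n : ℕ} (c : Fin n → ℂ)
    (hc : LinearIndependent ℚ c) (h : Fin n → Module.End ℚ P.Q) (hX : X = ∑ l, c l • ext P (h l))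
    (w : Module.End ℚ P.Q) (hw : ∀ v, X (ext P w v) = ext P w (X v)) (l : Fin n) :
    h l * w = w * h l := by
  have h1 : ∑ l, c l • ext P (h l * w - w * h l) = 0 := by
    have h2 : X * ext P w = ext P w * X := LinearMap.ext hw
    rw [hX, Finset.sum_mul, Finset.mul_sum, ← sub_eq_zero, ← Finset.sum_sub_distrib] at h2
    rw [← h2]
    refine Finset.sum_congr rfl fun l _ => ?_
    rw [ext_sub, ext_mul, ext_mul, smul_sub, smul_mul_assoc, mul_smul_comm]
  exact sub_eq_zero.mp (ext_indep P c hc _ h1 l)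

/-- the Casimir tensor is killed by the skew de Rham-Betti endomorphisms -/
lemma cas_killed {m : ℕ} (x x' : Fin m → Module.End ℚ P.Q) (hx : ∀ i, x i ∈ DQ P)
    (hx' : ∀ i, x' i ∈ DQ P) (e : Module.End ℂ (κ → ℂ)) (he : IsDRB P P e)
    (hs : ∀ u v, P.ψ (e u) v + P.ψ u (e v) = 0) : actForm e (cas P x x') = 0 := by
  have h1 : ∀ y ∈ DQ P, ext P y * e - e * ext P y = 0 := by
    intro y hy
    rw [sub_eq_zero]
    exact LinearMap.ext fun v => comm_of_isDRB P ((mem_GQ P).mp (DQ_le P hy)) e he v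
  apply MultilinearMap.ext
  intro v
  rw [actForm_cas P x x' hs, _root_.zero_apply]
  refine Finset.sum_eq_zero fun i _ => ?_
  rw [h1 _ (hx' i), h1 _ (hx i)]
  simp

variable (hϖ : ϖ ≠ 0) (hnd : HNd P)

include hϖ in
lemma comp_skew {X : Module.End ℂ (κ → ℂ)} {n : ℕ} (c : Fin n → ℂ)
    (hc : LinearIndependent ℚ c) (h : Fin n → Module.End ℚ P.Q) (hX : X = ∑ l, c l • ext P (h l))
    (hs : ∀ u v, P.ψ (X u) v + P.ψ u (X v) = 0) (l : Fin n) (u v : κ → ℂ) :
    P.ψ (ext P (h l) u) v + P.ψ u (ext P (h l) v) = 0 := by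
  have h1 : P.ψ.comp (ext P (h l)) + P.ψ.compl₂ (ext P (h l)) = 0 := by
    apply P.bB.ext
    intro p
    apply P.bB.ext
    intro q
    refine eq_zero_of_indep c hc ϖ hϖ
      (fun l => P.ψ (ext P (h l) (P.bB p)) (P.bB q) + P.ψ (P.bB p) (ext P (h l) (P.bB q)))
      (fun l => ?_) ?_ l
    · obtain ⟨a, ha⟩ := P.hψQ _ (ext_mem P (h l) _ (P.basis_mem p)) _ (P.basis_mem q)
      obtain ⟨b, hb⟩ := P.hψQ _ (P.basis_mem p) _ (ext_mem P (h l) _ (P.basis_mem q))
      refine ⟨a + b, ?_⟩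
      rw [ha, hb]
      push_cast
      ring
    · have h2 := hs (P.bB p) (P.bB q)
      rw [hX] at h2
      simp only [LinearMap.sum_apply, LinearMap.smul_apply, map_sum, map_smul, smul_eq_mul] at h2
      rw [← h2, ← Finset.sum_add_distrib]
      exact Finset.sum_congr rfl fun l _ => by ring
  exact congrArg (fun g => g u v) h1

include hϖ hnd in
/-- An operator which commutes with the de Rham-Betti endomorphisms, is skew for the polarisation
and kills the Grothendieck tensors of degree four which are killed by all skew de Rham-Betti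
endomorphisms is the sum of a symmetry of all Grothendieck
tensors and of a combination of central skew de Rham-Betti endomorphisms. -/
theorem decomp (X : Module.End ℂ (κ → ℂ))
    (h1 : ∀ f, IsDRB P P f → ∀ v, X (f v) = f (X v))
    (h2 : ∀ u v, P.ψ (X u) v + P.ψ u (X v) = 0)
    (h3 : ∀ β : TForm κ 2, IsTens P 2 β → (∀ e, IsDRB P P e →
      (∀ u v, P.ψ (e u) v + P.ψ u (e v) = 0) → actForm e β = 0) → actForm X β = 0) :
    ∃ (n : ℕ) (c : Fin n → ℂ) (y z : Fin n → Module.End ℚ P.Q), (∀ l, y l ∈ GQ P) ∧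
      (∀ l, IsDRB P P (ext P (z l))) ∧
      (∀ l f, IsDRB P P (ext P f) → z l * f = f * z l) ∧
      (∀ l u v, P.ψ (ext P (z l) u) v + P.ψ u (ext P (z l) v) = 0) ∧
      (∀ e, IsDRB P P (ext P e) → LinearMap.trace ℂ (κ → ℂ) (X * ext P e) = 0 →
        ∀ l, LinearMap.trace ℚ P.Q (z l * e) = 0) ∧
      X = ∑ l, c l • (ext P (y l) + ext P (z l)) := by
  obtain ⟨m, x, x', hx, hx', e1, e2, e3⟩ := exists_dual P hϖ hnd
  obtain ⟨n, c, h, hc, hX⟩ := exists_decomp P X
  have hX0 : actForm X (cas P x x') = 0 := h3 _ (isTens_cas P x x' hϖ hx hx' e1 e2)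
    (cas_killed P x x' hx hx')
  have hN : ∀ l, ∀ z ∈ DQ P, h l * z - z * h l ∈ DQ P := fun l z hz =>
    normal P x x' hx e1 e3 h2 hX0 c hc h hX l z hz
  have hex : ∀ l, ∃ y ∈ DQ P, ∀ x ∈ DQ P, h l * x - x * h l = y * x - x * y := fun l =>
    DQ_inner P hϖ hnd (fun x => h l * x - x * h l) (hN l)
      (fun x y => add_aux (V := P.Q) (h l) x y) (fun q x => smul_aux (V := P.Q) q (h l) x)
      (fun x _ y _ => deriv_aux (V := P.Q) (h l) x y)
  choose y hy hyx using hex
  have hyG : ∀ l, y l ∈ GQ P := fun l => DQ_le P (hy l)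
  have hcomm : ∀ f, IsDRB P P (ext P f) → ∀ l, (h l - y l) * f = f * (h l - y l) := by
    intro f hf l
    have a1 := comp_comm P c hc h hX f (fun v => h1 _ hf v) l
    have a2 : y l * f = f * y l := by
      apply ext_injective P
      rw [ext_mul, ext_mul]
      exact LinearMap.ext fun v => comm_of_isDRB P ((mem_GQ P).mp (hyG l)) _ hf v
    exact comm_aux2 (V := P.Q) a1 a2
  have hcommG : ∀ x ∈ GQ P, ∀ l, (h l - y l) * x = x * (h l - y l) := by
    intro x hxG l
    obtain ⟨d, hd, w, hw, hwc, rfl⟩ := GQ_decomp P hϖ hnd hxG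
    have a1 : (h l - y l) * d = d * (h l - y l) := comm_aux (V := P.Q) (hyx l d hd)
    have hwD : IsDRB P P (ext P w) := by
      refine isDRB_of_comm_GQ P hϖ _ (fun v hv => ext_mem P w v hv) (fun x' hx' v => ?_)
      have := congrArg (fun t => ext P t v) (hwc x' hx')
      simpa only [ext_mul, Module.End.mul_apply] using this
    exact comm_aux3 (V := P.Q) a1 (hcomm w hwD l)
  refine ⟨n, c, y, fun l => h l - y l, hyG, fun l => ?_, fun l f hf => hcomm f hf l,
    fun l u v => ?_, fun e he htr l => ?_, ?_⟩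
  · refine isDRB_of_comm_GQ P hϖ _ (fun v hv => ext_mem P _ v hv) (fun x' hx' v => ?_)
    have := congrArg (fun t => ext P t v) (hcommG x' hx' l)
    simpa only [ext_mul, Module.End.mul_apply] using this.symm
  · have a1 := comp_skew P hϖ c hc h hX h2 l u v
    have a2 := skew_of_kills P ((mem_GQ P).mp (hyG l)) u v
    rw [ext_sub, LinearMap.sub_apply, LinearMap.sub_apply, map_sub, map_sub,
      LinearMap.sub_apply]
    linear_combination a1 - a2
  · have a1 : LinearMap.trace ℚ P.Q (h l * e) = 0 := by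
      have a2 : ∑ l, c l * ((LinearMap.trace ℚ P.Q (h l * e) : ℚ) : ℂ) = 0 := by
        rw [← htr, hX, Finset.sum_mul, map_sum]
        refine Finset.sum_congr rfl fun l _ => ?_
        rw [smul_mul_assoc, map_smul, smul_eq_mul, ← ext_mul, trace_ext]
      have a3 := eq_zero_of_indep c hc 1 one_ne_zero
        (fun l => ((LinearMap.trace ℚ P.Q (h l * e) : ℚ) : ℂ)) (fun l => ⟨_, (one_mul _).symm⟩)
        a2 l
      exact_mod_cast a3
    have a2 : LinearMap.trace ℚ P.Q (y l * e) = 0 := by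
      refine trace_span_aux (V := P.Q) (GQ P : Set (Module.End ℚ P.Q)) e (y l)
        (fun a ha => ?_) (DQ_span P (hy l))
      apply ext_injective P
      rw [ext_mul, ext_mul]
      exact LinearMap.ext fun v => comm_of_isDRB P ((mem_GQ P).mp ha) _ he v
    exact trace_sub_aux (V := P.Q) a1 a2
  · rw [hX]
    refine Finset.sum_congr rfl fun l _ => ?_
    rw [ext_sub, add_sub_cancel]

include hϖ hnd in
/-- The action on Grothendieck tensors of all degrees. -/
theorem act_eq (X : Module.End ℂ (κ → ℂ))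
    (h1 : ∀ f, IsDRB P P f → ∀ v, X (f v) = f (X v))
    (h2 : ∀ u v, P.ψ (X u) v + P.ψ u (X v) = 0)
    (h3 : ∀ β : TForm κ 2, IsTens P 2 β → (∀ e, IsDRB P P e →
      (∀ u v, P.ψ (e u) v + P.ψ u (e v) = 0) → actForm e β = 0) → actForm X β = 0) :
    ∃ (n : ℕ) (c : Fin n → ℂ) (z : Fin n → Module.End ℚ P.Q),
      (∀ l, IsDRB P P (ext P (z l))) ∧
      (∀ l f, IsDRB P P (ext P f) → z l * f = f * z l) ∧
      (∀ l u v, P.ψ (ext P (z l) u) v + P.ψ u (ext P (z l) v) = 0) ∧
      (∀ e, IsDRB P P (ext P e) → LinearMap.trace ℂ (κ → ℂ) (X * ext P e) = 0 →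
        ∀ l, LinearMap.trace ℚ P.Q (z l * e) = 0) ∧
      ∀ (k : ℕ) (β : TForm κ k), IsTens P k β →
        actForm X β = ∑ l, c l • actForm (ext P (z l)) β := by
  obtain ⟨n, c, y, z, a1, a2, a3, a4, a5, a6⟩ := decomp P hϖ hnd X h1 h2 h3
  refine ⟨n, c, z, a2, a3, a4, a5, fun k β hβ => ?_⟩
  rw [a6, actForm_sum]
  refine Finset.sum_congr rfl fun l _ => ?_
  rw [actForm_smul, actForm_add, (mem_GQ P).mp (a1 l) k β hβ, zero_add]

end Pool.Agent.Helper40.Gpc
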