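import Pool.Agent.Helper40.Gpc.RatExt
import Pool.Agent.Helper7.Irred

/-!
The rational Lie algebra of all infinitesimal symmetries of all Grothendieck tensors.
-/

namespace Pool.Agent.Helper40.Gpc

open Module Pool.Agent.Helper7

attribute [local instance 100] LieRing.ofAssociativeRing

variable {κ : Type} [Fintype κ] [DecidableEq κ] {ϖ : ℂ} (P : PData κ ϖ)

/-- multilinear forms of degree `2k` -/
abbrev TForm (κ : Type) (k : ℕ) : Type := MultilinearMap ℂ (fun _ : Fin (2 * k) => (κ → ℂ)) ℂ

/-- Grothendieck tensors -/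
structure IsTens (k : ℕ) (β : TForm κ k) : Prop where
  alg : ∀ s : Fin (2 * k) → κ, IsAlgebraic ℚ (β (fun r => Pi.single (s r) 1))
  rat : ∀ v : Fin (2 * k) → (κ → ℂ), (∀ r, v r ∈ P.Q) → ∃ q : ℚ, β v = ϖ ^ k * q

/-- operators killing all Grothendieck tensors -/
def Kills (X : Module.End ℂ (κ → ℂ)) : Prop :=
  ∀ (k : ℕ) (β : TForm κ k), IsTens P k β → actForm X β = 0

lemma Kills.add {X Y : Module.End ℂ (κ → ℂ)} (hX : Kills P X) (hY : Kills P Y) :
    Kills P (X + Y) := by
  intro k β hβ
  rw [actForm_add, hX k β hβ, hY k β hβ, add_zero]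

lemma Kills.smul {X : Module.End ℂ (κ → ℂ)} (c : ℂ) (hX : Kills P X) : Kills P (c • X) := by
  intro k β hβ
  rw [actForm_smul, hX k β hβ, smul_zero]

lemma Kills.zero : Kills P 0 := by
  intro k β _
  rw [actForm_zero]

lemma Kills.sum {X : Type*} (s : Finset X) (f : X → Module.End ℂ (κ → ℂ))
    (h : ∀ x ∈ s, Kills P (f x)) : Kills P (∑ x ∈ s, f x) := by
  classical
  induction s using Finset.induction_on with
  | empty => rw [Finset.sum_empty]; exact Kills.zero P
  | insert a s ha ih =>
    rw [Finset.sum_insert ha]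
    exact Kills.add P (h a (Finset.mem_insert_self a s))
      (ih fun x hx => h x (Finset.mem_insert_of_mem hx))

lemma Kills.bracket {X Y : Module.End ℂ (κ → ℂ)} (hX : Kills P X) (hY : Kills P Y) :
    Kills P (X * Y - Y * X) := by
  intro k β hβ
  rw [actForm_bracket, hX k β hβ, hY k β hβ]
  have h1 : ∀ L : Module.End ℂ (κ → ℂ), actForm L (0 : TForm κ k) = 0 := by
    intro L
    apply MultilinearMap.ext
    intro v
    rw [actForm_apply]
    simp
  rw [h1, h1, sub_zero]

/-- the rational Lie algebra of infinitesimal symmetries of all Grothendieck tensors -/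
def GQ : LieSubalgebra ℚ (Module.End ℚ P.Q) where
  carrier := {y | Kills P (ext P y)}
  add_mem' {a b} ha hb := by
    change Kills P (ext P (a + b))
    rw [ext_add]
    exact Kills.add P ha hb
  zero_mem' := by
    change Kills P (ext P 0)
    rw [ext_zero]
    exact Kills.zero P
  smul_mem' q a ha := by
    change Kills P (ext P (q • a))
    rw [ext_smul]
    exact Kills.smul P _ ha
  lie_mem' {a b} ha hb := by
    change Kills P (ext P (a * b - b * a))
    rw [ext_sub, ext_mul, ext_mul]
    exact Kills.bracket P ha hb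

lemma mem_GQ {y : Module.End ℚ P.Q} : y ∈ GQ P ↔ Kills P (ext P y) := Iff.rfl

lemma value_rat {k : ℕ} (β : TForm κ k)
    (hβ : ∀ v : Fin (2 * k) → (κ → ℂ), (∀ r, v r ∈ P.Q) → ∃ q : ℚ, β v = ϖ ^ k * q)
    (y : Module.End ℚ P.Q) (v : Fin (2 * k) → (κ → ℂ)) (hv : ∀ r, v r ∈ P.Q) :
    ∃ q : ℚ, actForm (ext P y) β v = ϖ ^ k * q := by
  have h1 : ∀ r, ∃ q : ℚ, β (Function.update v r (ext P y (v r))) = ϖ ^ k * q := by
    intro r
    apply hβ
    intro r'
    by_cases h : r' = r
    · subst h; rw [Function.update_self]; exact ext_mem P y _ (hv r')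
    · rw [Function.update_of_ne h]; exact hv r'
  choose q hq using h1
  refine ⟨∑ r, q r, ?_⟩
  rw [actForm_apply, Finset.sum_congr rfl (fun r _ => hq r), ← Finset.mul_sum]
  push_cast
  rfl

lemma eq_zero_of_rat {k : ℕ} (β : TForm κ k) (h : ∀ v : Fin (2 * k) → (κ → ℂ),
    (∀ r, v r ∈ P.Q) → β v = 0) : β = 0 := by
  apply Basis.ext_multilinear (fun _ => P.bB)
  intro s
  rw [h _ (fun r => P.basis_mem (s r))]
  rfl

omit [Fintype κ] [DecidableEq κ] in
lemma actForm_sum {k : ℕ} {X : Type*} (s : Finset X) (f : X → Module.End ℂ (κ → ℂ))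
    (β : TForm κ k) : actForm (∑ x ∈ s, f x) β = ∑ x ∈ s, actForm (f x) β := by
  classical
  induction s using Finset.induction_on with
  | empty => rw [Finset.sum_empty, Finset.sum_empty, actForm_zero]
  | insert a s ha ih => rw [Finset.sum_insert ha, Finset.sum_insert ha, actForm_add, ih]

variable (hϖ : ϖ ≠ 0)

include hϖ in
/-- rational components of a symmetry of one rational tensor -/
lemma component {k : ℕ} (β : TForm κ k)
    (hβ : ∀ v : Fin (2 * k) → (κ → ℂ), (∀ r, v r ∈ P.Q) → ∃ q : ℚ, β v = ϖ ^ k * q)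
    {m : ℕ} (c : Fin m → ℂ) (hc : LinearIndependent ℚ c)
    (y : Fin m → Module.End ℚ P.Q) (hX : actForm (∑ l, c l • ext P (y l)) β = 0) (l : Fin m) :
    actForm (ext P (y l)) β = 0 := by
  apply eq_zero_of_rat P
  intro v hv
  refine eq_zero_of_indep c hc (ϖ ^ k) (pow_ne_zero k hϖ)
    (fun l => actForm (ext P (y l)) β v) (fun l => value_rat P β hβ (y l) v hv) ?_ l
  have h1 := congrArg (fun f => f v) hX
  simp only [actForm_sum] at h1
  rw [_root_.sum_apply] at h1
  simp only [actForm_smul, _root_.smul_apply, smul_eq_mul] at h1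
  exact h1

include hϖ in
lemma mem_GQ_of_decomp {m : ℕ} (c : Fin m → ℂ) (hc : LinearIndependent ℚ c)
    (y : Fin m → Module.End ℚ P.Q) (hX : Kills P (∑ l, c l • ext P (y l))) (l : Fin m) :
    y l ∈ GQ P := by
  intro k β hβ
  exact component P hϖ β hβ.rat c hc y (hX k β hβ) l

include hϖ in
/-- symmetries are complex combinations of rational ones -/
lemma exists_decomp_of_kills (X : Module.End ℂ (κ → ℂ)) (hX : Kills P X) :
    ∃ (m : ℕ) (c : Fin m → ℂ) (y : Fin m → Module.End ℚ P.Q),
      (∀ l, y l ∈ GQ P) ∧ X = ∑ l, c l • ext P (y l) := by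
  obtain ⟨m, c, y, hc, hX'⟩ := exists_decomp P X
  refine ⟨m, c, y, fun l => ?_, hX'⟩
  rw [hX'] at hX
  exact mem_GQ_of_decomp P hϖ c hc y hX l

omit [Fintype κ] [DecidableEq κ] in
lemma actForm_one {k : ℕ} (β : TForm κ k) : actForm 1 β = (2 * k : ℂ) • β := by
  apply MultilinearMap.ext
  intro v
  rw [actForm_apply, _root_.smul_apply, smul_eq_mul]
  simp

include hϖ in
/-- the operators comparing the two structures -/
lemma kills_N (D : Derivation ℚ ℂ ℂ) : Kills P (P.N D + (-(D ϖ / ϖ) / 2) • 1) := by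
  intro k β hβ
  rw [actForm_add, actForm_smul, actForm_one]
  apply MultilinearMap.ext
  intro v
  rw [_root_.add_apply, _root_.smul_apply, _root_.smul_apply, smul_eq_mul, smul_eq_mul,
    actForm_apply]
  have h1 := opN_invariant P.bB (Pi.basisFun ℂ κ) D ϖ hϖ k β
    (fun s => by
      have h2 := hβ.alg s
      have h3 : (fun r => (Pi.basisFun ℂ κ) (s r)) = fun r => Pi.single (s r) (1 : ℂ) := by
        funext r
        rw [Pi.basisFun_apply]
      rw [h3]
      exact h2)
    (fun s => hβ.rat _ (fun r => P.basis_mem (s r))) v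
  have h2 : P.N D = opN P.bB (Pi.basisFun ℂ κ) D := rfl
  rw [h2, h1, _root_.zero_apply]
  ring

include hϖ in
/-- rational tensors killed by all rational symmetries are Grothendieck tensors -/
theorem isTens_of_GQ {k : ℕ} (β : TForm κ k)
    (hβ : ∀ v : Fin (2 * k) → (κ → ℂ), (∀ r, v r ∈ P.Q) → ∃ q : ℚ, β v = ϖ ^ k * q)
    (h : ∀ y ∈ GQ P, actForm (ext P y) β = 0) : IsTens P k β where
  rat := hβ
  alg := by
    intro s
    apply isAlgebraic_of_derivation
    intro D
    have h1 : actForm (P.N D + (-(D ϖ / ϖ) / 2) • 1) β = 0 := by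
      obtain ⟨m, c, y, hy, hX⟩ := exists_decomp_of_kills P hϖ _ (kills_N P hϖ D)
      rw [hX, actForm_sum]
      refine Finset.sum_eq_zero fun l _ => ?_
      rw [actForm_smul, h _ (hy l), smul_zero]
    have h2 := derivForm_of_rat P.bB D ϖ hϖ k β
      (fun s => hβ _ (fun r => P.basis_mem (s r))) (fun r => Pi.single (s r) 1)
    have h3 : ∀ r, nabla P.bB D (Pi.single (s r) 1 : κ → ℂ) = - P.N D (Pi.single (s r) 1) := by
      intro r
      have h4 : P.N D (Pi.single (s r) 1) = nabla (Pi.basisFun ℂ κ) D (Pi.single (s r) 1) -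
          nabla P.bB D (Pi.single (s r) 1) := opN_apply _ _ _ _
      have h5 : nabla (Pi.basisFun ℂ κ) D (Pi.single (s r) 1 : κ → ℂ) = 0 := by
        rw [← Pi.basisFun_apply ℂ κ (s r), nabla_basis]
      rw [h4, h5, zero_sub, neg_neg]
    rw [actForm_add, actForm_smul, actForm_one] at h1
    have h4 := congrArg (fun f => f (fun r => (Pi.single (s r) 1 : κ → ℂ))) h1
    rw [_root_.add_apply, _root_.smul_apply, _root_.smul_apply, smul_eq_mul, smul_eq_mul,
      actForm_apply, _root_.zero_apply] at h4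
    rw [h2]
    simp only [h3]
    have h5 : ∀ r, β (Function.update (fun r => (Pi.single (s r) 1 : κ → ℂ)) r
        (-(P.N D) (Pi.single (s r) 1))) =
        - β (Function.update (fun r => (Pi.single (s r) 1 : κ → ℂ)) r
        ((P.N D) (Pi.single (s r) 1))) := by
      intro r
      have h6 : -(P.N D) (Pi.single (s r) 1) = (-1 : ℂ) • (P.N D) (Pi.single (s r) 1) := by
        rw [neg_one_smul]
      rw [h6, MultilinearMap.map_update_smul, smul_eq_mul]
      ring
    simp only [h5, Finset.sum_neg_distrib]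
    linear_combination -h4

end Pool.Agent.Helper40.Gpc
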