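import Pool.Agent.Helper40.Gpc.Gro

/-!
The commutant of the rational Lie algebra of symmetries; complements of stable subspaces.
-/

namespace Pool.Agent.Helper40.Gpc

open Module Pool.Agent.Helper7

attribute [local instance 100] LieRing.ofAssociativeRing

variable {κ : Type} [Fintype κ] [DecidableEq κ] {ϖ : ℂ} (P : PData κ ϖ)

section bilin

/-- a bilinear form as tensor of degree two -/
noncomputable def tens1 (B : (κ → ℂ) →ₗ[ℂ] (κ → ℂ) →ₗ[ℂ] ℂ) : TForm κ 1 :=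
  prodBilin (fun _ => B)

omit [Fintype κ] [DecidableEq κ] in
lemma tens1_apply (B : (κ → ℂ) →ₗ[ℂ] (κ → ℂ) →ₗ[ℂ] ℂ) (v : Fin (2 * 1) → (κ → ℂ)) :
    tens1 B v = B (v 0) (v 1) := by
  change ∏ a : Fin 1, B (v (lo a)) (v (hi a)) = _
  rw [Fin.prod_univ_one]
  rfl

omit [Fintype κ] [DecidableEq κ] in
lemma actForm_tens1 (X : Module.End ℂ (κ → ℂ)) (B : (κ → ℂ) →ₗ[ℂ] (κ → ℂ) →ₗ[ℂ] ℂ)
    (u v : κ → ℂ) : actForm X (tens1 B) ![u, v] = B (X u) v + B u (X v) := by
  rw [actForm_apply]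
  change ∑ r : Fin 2, _ = _
  rw [Fin.sum_univ_two, tens1_apply, tens1_apply]
  simp [Function.update]

lemma isTens_tens1 (B : (κ → ℂ) →ₗ[ℂ] (κ → ℂ) →ₗ[ℂ] ℂ)
    (ha : ∀ i j, IsAlgebraic ℚ (B (Pi.single i 1) (Pi.single j 1)))
    (hq : ∀ u ∈ P.Q, ∀ v ∈ P.Q, ∃ q : ℚ, B u v = ϖ * q) : IsTens P 1 (tens1 B) where
  alg s := by rw [tens1_apply]; exact ha _ _
  rat v hv := by
    rw [tens1_apply, pow_one]
    exact hq _ (hv _) _ (hv _)

lemma bilin_of_kills {X : Module.End ℂ (κ → ℂ)} (hX : Kills P X)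
    (B : (κ → ℂ) →ₗ[ℂ] (κ → ℂ) →ₗ[ℂ] ℂ)
    (ha : ∀ i j, IsAlgebraic ℚ (B (Pi.single i 1) (Pi.single j 1)))
    (hq : ∀ u ∈ P.Q, ∀ v ∈ P.Q, ∃ q : ℚ, B u v = ϖ * q) (u v : κ → ℂ) :
    B (X u) v + B u (X v) = 0 := by
  rw [← actForm_tens1, hX 1 (tens1 B) (isTens_tens1 P B ha hq)]
  rfl

lemma skew_of_kills {X : Module.End ℂ (κ → ℂ)} (hX : Kills P X) (u v : κ → ℂ) :
    P.ψ (X u) v + P.ψ u (X v) = 0 :=
  bilin_of_kills P hX P.ψ P.hψalg P.hψQ u v

lemma alg_bilin (u v : κ → ℂ) (hu : ∀ i, IsAlgebraic ℚ (u i)) (hv : ∀ i, IsAlgebraic ℚ (v i)) :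
    IsAlgebraic ℚ (P.ψ u v) := by
  have h1 : ∀ w : κ → ℂ, w = ∑ i, w i • (Pi.single i 1 : κ → ℂ) := by
    intro w
    funext j
    simp [Finset.sum_apply, Pi.single_apply]
  rw [h1 v, map_sum]
  refine isAlg_sum _ _ fun j _ => ?_
  rw [map_smul, smul_eq_mul]
  refine (hv j).mul ?_
  rw [h1 u, map_sum, LinearMap.sum_apply]
  refine isAlg_sum _ _ fun i _ => ?_
  rw [map_smul, LinearMap.smul_apply, smul_eq_mul]
  exact (hu i).mul (P.hψalg i j)

/-- de Rham-Betti endomorphisms commute with the symmetries -/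
lemma comm_of_isDRB {X : Module.End ℂ (κ → ℂ)} (hX : Kills P X) (f : Module.End ℂ (κ → ℂ))
    (hf : IsDRB P P f) (v : κ → ℂ) : X (f v) = f (X v) := by
  rw [← sub_eq_zero]
  apply P.hψnd
  intro w
  rw [map_sub, LinearMap.sub_apply]
  have hsingle : ∀ i j : κ, IsAlgebraic ℚ ((Pi.single i 1 : κ → ℂ) j) := by
    intro i j
    by_cases h : j = i
    · subst h; rw [Pi.single_eq_same]; exact isAlgebraic_one
    · rw [Pi.single_eq_of_ne h]; exact isAlgebraic_zero
  have h1 := bilin_of_kills P hX (P.ψ ∘ₗ f)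
    (fun i j => alg_bilin P _ _ (hf.alg i) (hsingle j))
    (fun u hu v hv => P.hψQ _ (hf.rat u hu) v hv) v w
  have h2 := skew_of_kills P hX (f v) w
  rw [LinearMap.comp_apply, LinearMap.comp_apply] at h1
  linear_combination h2 - h1

end bilin

section commutant

variable (hϖ : ϖ ≠ 0)

include hϖ in
lemma comm_N_of_GQ (f : Module.End ℂ (κ → ℂ))
    (h : ∀ y ∈ GQ P, ∀ v, ext P y (f v) = f (ext P y v)) (D : Derivation ℚ ℂ ℂ) (v : κ → ℂ) :
    P.N D (f v) = f (P.N D v) := by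
  obtain ⟨m, c, y, hy, hX⟩ := exists_decomp_of_kills P hϖ _ (kills_N P hϖ D)
  have h1 : ∀ w, P.N D w = ∑ l, c l • ext P (y l) w + (D ϖ / ϖ / 2) • w := by
    intro w
    have h2 := congrArg (fun g : Module.End ℂ (κ → ℂ) => g w) hX
    simp only [LinearMap.add_apply, LinearMap.smul_apply, LinearMap.sum_apply,
      Module.End.one_apply] at h2
    rw [← h2, add_assoc, ← add_smul]
    have h3 : -(D ϖ / ϖ) / 2 + D ϖ / ϖ / 2 = 0 := by ring
    rw [h3, zero_smul, add_zero]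
  rw [h1, h1, map_add, map_sum, map_smul]
  congr 1
  refine Finset.sum_congr rfl fun l _ => ?_
  rw [map_smul, h _ (hy l)]

include hϖ in
/-- rational endomorphisms commuting with the symmetries are de Rham-Betti -/
theorem isDRB_of_comm_GQ (f : Module.End ℂ (κ → ℂ)) (hr : ∀ v ∈ P.Q, f v ∈ P.Q)
    (h : ∀ y ∈ GQ P, ∀ v, ext P y (f v) = f (ext P y v)) : IsDRB P P f :=
  isDRB_of_comm P P f hr (fun D v => comm_N_of_GQ P hϖ f h D v)

lemma nabla_rat (D : Derivation ℚ ℂ ℂ) (v : κ → ℂ) (hv : v ∈ P.Q) :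
    nabla P.bB D v = 0 := by
  apply nabla_eq_zero
  intro q
  obtain ⟨a, ha⟩ := P.repr_rat v hv q
  rw [ha]; exact isAlgebraic_ratCast ℚ a

include hϖ in
/-- stable rational subspaces are spanned by algebraic vectors -/
lemma span_alg_of_stable (S : Submodule ℚ (κ → ℂ)) (hS : S ≤ P.Q)
    (hst : ∀ y ∈ GQ P, ∀ v ∈ S, ext P y v ∈ S) :
    Submodule.span ℂ (S : Set (κ → ℂ)) ≤ Submodule.span ℂ
      {v | (∀ j, IsAlgebraic ℚ (v j)) ∧ v ∈ Submodule.span ℂ (S : Set (κ → ℂ))} := by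
  have hN : ∀ (D : Derivation ℚ ℂ ℂ), ∀ v ∈ Submodule.span ℂ (S : Set (κ → ℂ)),
      P.N D v ∈ Submodule.span ℂ (S : Set (κ → ℂ)) := by
    intro D v hv
    induction hv using Submodule.span_induction with
    | mem w hw =>
      obtain ⟨m, c, y, hy, hX⟩ := exists_decomp_of_kills P hϖ _ (kills_N P hϖ D)
      have h2 := congrArg (fun g : Module.End ℂ (κ → ℂ) => g w) hX
      simp only [LinearMap.add_apply, LinearMap.smul_apply, LinearMap.sum_apply,
        Module.End.one_apply] at h2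
      have h3 : P.N D w = ∑ l, c l • ext P (y l) w + (D ϖ / ϖ / 2) • w := by
        rw [← h2, add_assoc, ← add_smul]
        have h3 : -(D ϖ / ϖ) / 2 + D ϖ / ϖ / 2 = 0 := by ring
        rw [h3, zero_smul, add_zero]
      rw [h3]
      refine Submodule.add_mem _ (Submodule.sum_mem _ fun l _ => Submodule.smul_mem _ _
        (Submodule.subset_span (hst _ (hy l) w hw))) (Submodule.smul_mem _ _
        (Submodule.subset_span hw))
    | zero => rw [map_zero]; exact Submodule.zero_mem _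
    | add x y _ _ hx hy => rw [map_add]; exact Submodule.add_mem _ hx hy
    | smul c x _ hx => rw [map_smul]; exact Submodule.smul_mem _ _ hx
  have h0 := le_span_algebraic (Pi.basisFun ℂ κ) (Submodule.span ℂ (S : Set (κ → ℂ))) (by
    intro D v hv
    have h1 := hN D v hv
    have h2 : nabla P.bB D v ∈ Submodule.span ℂ (S : Set (κ → ℂ)) := by
      induction hv using Submodule.span_induction with
      | mem x hx => rw [nabla_rat P D x (hS hx)]; exact Submodule.zero_mem _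
      | zero => rw [nabla_zero]; exact Submodule.zero_mem _
      | add x y hx' hy' hx hy =>
        rw [nabla_add]
        exact Submodule.add_mem _ (hx (hN D x hx')) (hy (hN D y hy'))
      | smul c x hx' hx =>
        rw [nabla_smul]
        exact Submodule.add_mem _ (Submodule.smul_mem _ _ hx')
          (Submodule.smul_mem _ _ (hx (hN D x hx')))
    have h3 : nabla (Pi.basisFun ℂ κ) D v = P.N D v + nabla P.bB D v := by
      rw [PData.N, opN_apply]; abel
    rw [h3]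
    exact Submodule.add_mem _ h1 h2)
  simpa only [Pi.basisFun_repr] using h0

include hϖ in
/-- stable subspaces have stable complements -/
theorem exists_compl (hnd : HNd P) (N : LieSubmodule ℚ (GQ P) P.Q) :
    ∃ N' : LieSubmodule ℚ (GQ P) P.Q, IsCompl N N' := by
  set S : Submodule ℚ (κ → ℂ) := (N : Submodule ℚ P.Q).map P.Q.subtype with hS
  have hSQ : S ≤ P.Q := by
    rintro _ ⟨v, -, rfl⟩
    exact v.2
  have hst : ∀ y ∈ GQ P, ∀ v ∈ S, ext P y v ∈ S := by
    rintro y hy _ ⟨v, hv, rfl⟩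
    refine ⟨y v, ?_, ?_⟩
    · exact N.lie_mem (x := ⟨y, hy⟩) hv
    · exact (ext_apply P y v).symm
  have hU : ∀ u ∈ (N : Submodule ℚ P.Q), (∀ v ∈ (N : Submodule ℚ P.Q), P.ψ u v = 0) → u = 0 := by
    intro u hu h
    apply Subtype.ext
    refine hnd S hSQ (span_alg_of_stable P hϖ S hSQ hst) u ⟨u, hu, rfl⟩ ?_
    rintro _ ⟨v, hv, rfl⟩
    exact h v hv
  obtain ⟨U', hU', hmem⟩ := isCompl_of_nondeg P hϖ (N : Submodule ℚ P.Q) hU
  refine ⟨{ U' with
    lie_mem := ?_ }, ?_⟩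
  · rintro ⟨y, hy⟩ v hv
    change y v ∈ U'
    have hv' : ∀ u ∈ (N : Submodule ℚ P.Q), P.ψ u v = 0 := (hmem v).mp hv
    rw [hmem]
    intro u hu
    have h1 := skew_of_kills P ((mem_GQ P).mp hy) u v
    rw [ext_apply, ext_apply] at h1
    have h2 := hv' (y u) (N.lie_mem (x := ⟨y, hy⟩) hu)
    rw [h2, zero_add] at h1
    exact h1
  · rw [← LieSubmodule.isCompl_toSubmodule]
    exact hU'

lemma faithful (x : GQ P) (h : ∀ v : P.Q, ⁅x, v⁆ = 0) : x = 0 := by
  apply Subtype.ext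
  ext v j
  exact congrFun (congrArg Subtype.val (h v)) j

end commutant

end Pool.Agent.Helper40.Gpc
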