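import Mathlib

/-!
Lie algebras over a field of characteristic zero with a faithful completely reducible
representation: the derived algebra has trivial radical and is complemented by the centre; the
trace form is non-degenerate on the derived algebra.
-/

namespace Pool.Agent.Helper40.Gpc

open LieAlgebra LieModule Module

open scoped TensorProduct

attribute [local instance 100] LieRing.ofAssociativeRing

universe u

section closed

variable {K : Type*} [Field K] [CharZero K] [IsAlgClosed K] {g : Type*} [LieRing g]
  [LieAlgebra K g] [FiniteDimensional K g]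

/-- sums of brackets have trace zero -/
lemma trace_of_derived {R : Type*} [CommRing R] {g : Type*} [LieRing g] [LieAlgebra R g]
    (M : Type*) [AddCommGroup M] [Module R M] [LieRingModule g M]
    [LieModule R g M] (x : g) (hx : x ∈ derivedSeries R g 1) :
    LinearMap.trace R M (toEnd R g M x) = 0 := by
  rw [derivedSeries_def, derivedSeriesOfIdeal_succ, derivedSeriesOfIdeal_zero,
    ← LieSubmodule.mem_toSubmodule, LieSubmodule.lieIdeal_oper_eq_linear_span'] at hx
  induction hx using Submodule.span_induction with
  | mem y hy =>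
    obtain ⟨a, -, b, -, rfl⟩ := hy
    rw [LieHom.map_lie, LinearMap.trace_lie]
  | zero => simp
  | add a b _ _ ha hb => rw [map_add, map_add, ha, hb, add_zero]
  | smul c a _ ha => rw [map_smul, map_smul, ha, smul_zero]

/-- sums of brackets which lie in a solvable ideal act nilpotently -/
theorem nilp_of_solvable (I : LieIdeal K g) [IsSolvable I] (x : g) (hx : x ∈ I)
    (hx' : x ∈ derivedSeries K g 1) : ∀ (n : ℕ) (M : Type u) [AddCommGroup M] [Module K M]
    [LieRingModule g M] [LieModule K g M] [FiniteDimensional K M], finrank K M ≤ n →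
    ∃ k, (toEnd K g M x) ^ k = 0 := by
  intro n
  induction n with
  | zero =>
    intro M _ _ _ _ _ hn
    have : Subsingleton M := finrank_zero_iff.mp (Nat.le_zero.mp hn)
    exact ⟨1, Subsingleton.elim _ _⟩
  | succ n ih =>
    intro M _ _ _ _ _ hn
    by_cases hM : Subsingleton M
    · exact ⟨1, Subsingleton.elim _ _⟩
    have hM' : Nontrivial M := not_subsingleton_iff_nontrivial.mp hM
    obtain ⟨χ, hχ⟩ : ∃ χ : Module.Dual K I, Nontrivial (weightSpace M χ) :=
      exists_nontrivial_weightSpace_of_isSolvable K I M
    let N : LieSubmodule K g M := weightSpaceOfIsLieTower K M χ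
    have hN : Nontrivial N := hχ
    have hxN : toEnd K g N x = χ ⟨x, hx⟩ • LinearMap.id := by
      ext m
      have h' : (m : M) ∈ weightSpace M χ := m.2
      rw [mem_weightSpace] at h'
      exact h' ⟨x, hx⟩
    have htr := trace_of_derived N x hx'
    rw [hxN, map_smul, LinearMap.trace_id, smul_eq_mul] at htr
    have hfN : 0 < finrank K N := finrank_pos
    have hχ0 : χ ⟨x, hx⟩ = 0 := by
      refine (mul_eq_zero.mp htr).resolve_right ?_
      exact_mod_cast hfN.ne'
    rw [hχ0, zero_smul] at hxN
    have hQ : finrank K (M ⧸ N) ≤ n := by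
      have h1 := Submodule.finrank_quotient_add_finrank (N : Submodule K M)
      have h2 : finrank K (M ⧸ N) = finrank K (M ⧸ (N : Submodule K M)) := rfl
      have h3 : finrank K N = finrank K (N : Submodule K M) := rfl
      omega
    obtain ⟨k, hk⟩ := ih (M ⧸ N) hQ
    refine ⟨k + 1, ?_⟩
    have h1 : ∀ m : M, ((toEnd K g M x) ^ k) m ∈ N := by
      intro m
      have h2 : ∀ j (m : M), ((toEnd K g (M ⧸ N) x) ^ j) (LieSubmodule.Quotient.mk m) =
          (LieSubmodule.Quotient.mk (((toEnd K g M x) ^ j) m) : M ⧸ N) := by
        intro j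
        induction j with
        | zero => intro m; rfl
        | succ j ihj =>
          intro m
          rw [pow_succ, Module.End.mul_apply, pow_succ, Module.End.mul_apply, ← ihj]
          rfl
      have h3 := h2 k m
      rw [hk, LinearMap.zero_apply] at h3
      exact (LieSubmodule.Quotient.mk_eq_zero' (N := N)).mp h3.symm
    ext m
    rw [pow_succ', Module.End.mul_apply]
    have h4 := congrArg (fun f : Module.End K N => ((f ⟨_, h1 m⟩ : N) : M)) hxN
    exact h4

end closed

section field

variable {K : Type*} [Field K] [CharZero K] {g : Type*} [LieRing g]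
  [LieAlgebra K g] [FiniteDimensional K g]

/-- sums of brackets which lie in a solvable ideal act nilpotently -/
theorem nilp_of_solvable' (I : LieIdeal K g) [hI : IsSolvable I] (x : g) (hx : x ∈ I)
    (hx' : x ∈ derivedSeries K g 1) (M : Type*) [AddCommGroup M] [Module K M]
    [LieRingModule g M] [LieModule K g M] [FiniteDimensional K M] :
    ∃ k, (toEnd K g M x) ^ k = 0 := by
  set A := AlgebraicClosure K
  have h1 : IsSolvable (I.baseChange A : LieIdeal A (A ⊗[K] g)) := by
    obtain ⟨k, hk⟩ := IsSolvable.solvable K I
    rw [LieIdeal.derivedSeries_eq_bot_iff] at hk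
    refine IsSolvable.mk (R := A) (k := k) ((LieIdeal.derivedSeries_eq_bot_iff _ k).mpr ?_)
    rw [derivedSeriesOfIdeal_baseChange, hk, LieSubmodule.baseChange_bot]
  obtain ⟨k, hk⟩ := nilp_of_solvable (I.baseChange A) ((1 : A) ⊗ₜ[K] x)
    (LieSubmodule.tmul_mem_baseChange_of_mem 1 hx) (by
      rw [derivedSeries_baseChange]
      exact LieSubmodule.tmul_mem_baseChange_of_mem 1 hx') _ (A ⊗[K] M) le_rfl
  refine ⟨k, ?_⟩
  rw [toEnd_baseChange] at hk
  ext m
  have h2 : ∀ j (m : M), (((toEnd K g M x).baseChange A) ^ j) ((1 : A) ⊗ₜ[K] m) =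
      (1 : A) ⊗ₜ[K] (((toEnd K g M x) ^ j) m) := by
    intro j
    induction j with
    | zero => intro m; rfl
    | succ j ihj =>
      intro m
      rw [pow_succ, Module.End.mul_apply, pow_succ, Module.End.mul_apply, ← ihj]
      rfl
  have h3 := h2 k m
  rw [hk, LinearMap.zero_apply] at h3
  rw [LinearMap.zero_apply]
  exact (Module.FaithfullyFlat.one_tmul_eq_zero_iff K M (A := A) _).mp h3.symm

end field

end Pool.Agent.Helper40.Gpc
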