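import Pool.Agent.Helper40.Gpc.Comp

/-!
Degree four suffices.
-/

open scoped ComplexConjugate

namespace Pool.Agent.Helper40.Gpc

open Module Pool.Agent.Helper7 Pool.Agent.GPC

variable (A : AbVar)

lemma two_pi_I_ne : (2 * Real.pi * Complex.I : ℂ) ≠ 0 := Complex.two_pi_I_ne_zero

lemma conj_two_pi_I : conj (2 * Real.pi * Complex.I : ℂ) = -(2 * Real.pi * Complex.I) := by
  rw [map_mul, map_mul, Complex.conj_I, Complex.conj_ofReal]
  have : conj (2 : ℂ) = 2 := Complex.conj_ofNat 2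
  rw [this]
  ring

lemma psi_skew_iff (e : A.H1 →ₗ[ℂ] A.H1) :
    (∀ u v, (pData A).ψ (e u) v + (pData A).ψ u (e v) = 0) ↔
      ∀ u v, A.pol (e u) v = - A.pol u (e v) := by
  constructor
  · intro h u v
    exact eq_neg_of_add_eq_zero_left (h u v)
  · intro h u v
    have h1 : (pData A).ψ (e u) v = - (pData A).ψ u (e v) := h u v
    rw [h1, neg_add_cancel]

lemma lieTrace_eq (f : A.H1 → A.H1) : A.lieTrace f = (lieMat A f).trace := rfl

lemma lieTrace_comp (F G : A.H1 →ₗ[ℂ] A.H1) (hF : ∀ v, A.IsFil v → A.IsFil (F v)) :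
    A.lieTrace (fun v => F (G v)) = (lieMat A F * lieMat A G).trace := by
  rw [Matrix.trace]
  refine Finset.sum_congr rfl fun a _ => ?_
  rw [Matrix.diag_apply, Matrix.mul_apply]
  exact inl_map A F hF _ a

/-- the Hodge operator kills the Grothendieck tensors of degree four which are killed by the skew
endomorphisms -/
lemma hop_kills (h : ∀ α : PowForm A 4 (2 * 2), IsGrothendieck _ _ 2 α →
      (∀ e, A.IsSkewEnd e → IsKilledBy A 4 (2 * 2) e α) → IsHodge _ _ 2 α)
    (β : TForm (Fin A.g ⊕ Fin A.g) 2) (hβ : IsTens (pData A) 2 β)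
    (hk : ∀ e, IsDRB (pData A) (pData A) e →
      (∀ u v, (pData A).ψ (e u) v + (pData A).ψ u (e v) = 0) → actForm e β = 0) :
    actForm (hop A) β = 0 := by
  have h1 : IsHodge _ _ 2 (altOf A 2 β) := by
    refine h (altOf A 2 β) (isGrothendieck_altOf A hβ) fun e he => ?_
    have h2 := hk (IsLinearMap.mk' e he.1.linear) (isDRB_of_isEnd A _ he.1)
      ((psi_skew_iff A _).mpr he.2)
    exact killed_altOf A (IsLinearMap.mk' e he.1.linear) h2
  have h3 := inF_comp A (altOf A 2 β) h1 id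
  rw [comp_altOf] at h3
  exact act_of_inF (pData A) (hop A) conj_two_pi_I (hop_hop A) (hop_cB A) β hβ.rat h3

/-- the action of the Hodge operator on Grothendieck tensors -/
theorem hop_act (h : ∀ α : PowForm A 4 (2 * 2), IsGrothendieck _ _ 2 α →
      (∀ e, A.IsSkewEnd e → IsKilledBy A 4 (2 * 2) e α) → IsHodge _ _ 2 α) :
    ∃ (m : ℕ) (c : Fin m → ℂ) (z : Fin m → A.H1 →ₗ[ℂ] A.H1), (∀ l, A.IsHodgeCentral (z l)) ∧
      ∀ (k : ℕ) (β : TForm (Fin A.g ⊕ Fin A.g) k), IsTens (pData A) k β →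
        actForm (hop A) β = ∑ l, c l • actForm (z l) β := by
  have hP : ∀ f : A.H1 →ₗ[ℂ] A.H1, IsDRB (pData A) (pData A) f → A.IsEnd f :=
    fun f hf => isEnd_of_isDRB A f hf
  obtain ⟨m, c, z, a1, a2, a3, a4, a5⟩ := act_eq (pData A) two_pi_I_ne (hnd_pData A) (hop A)
    (fun f hf v => hop_comm A f (hP f hf).betti (hP f hf).hodge v)
    (fun u v => polForm_hop A u v) (hop_kills A h)
  have hskew : ∀ l, ∀ u v, A.polForm (ext (pData A) (z l) u) v +
      A.polForm u (ext (pData A) (z l) v) = 0 := fun l u v => a3 l u v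
  refine ⟨m, c, fun l => ext (pData A) (z l), fun l => ⟨⟨hP _ (a1 l), ?_⟩, ?_, ?_⟩, a5⟩
  · exact (psi_skew_iff A _).mp (a3 l)
  · intro f hf v
    obtain ⟨y, hy⟩ := exists_ext (pData A) (IsLinearMap.mk' f hf.linear) (fun v hv => by
      rw [mem_pData_Q] at hv ⊢
      exact hf.betti v hv)
    have hd : IsDRB (pData A) (pData A) (ext (pData A) y) := by
      rw [← hy]
      exact isDRB_of_isEnd A _ hf
    have h1 := congrArg (fun t => ext (pData A) t v) (a2 l y hd)
    simp only [ext_mul, Module.End.mul_apply, ← hy] at h1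
    exact h1
  · intro e he ht
    set E : A.H1 →ₗ[ℂ] A.H1 := IsLinearMap.mk' e he.1.linear with hE
    have hsE : ∀ u v, A.polForm (E u) v + A.polForm u (E v) = 0 :=
      (psi_skew_iff A E).mpr he.2
    obtain ⟨y, hy⟩ := exists_ext (pData A) E (fun v hv => by
      rw [mem_pData_Q] at hv ⊢
      exact he.1.betti v hv)
    have hd : IsDRB (pData A) (pData A) (ext (pData A) y) := by
      rw [← hy]
      exact isDRB_of_isEnd A _ he.1
    have h0 : LinearMap.trace ℂ A.H1 (hop A * ext (pData A) y) = 0 := by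
      rw [← hy, trace_hop_mul A E hsE he.1.hodge]
      have h2 : (lieMat A E).trace = 0 := ht
      rw [h2, mul_zero]
    have h1 := a4 y hd h0 l
    have h2 : LinearMap.trace ℂ A.H1 (ext (pData A) (z l) * E) = 0 := by
      rw [hy, ← ext_mul, trace_ext, h1, Rat.cast_zero]
    rw [trace_mul_skew A _ (hskew l) (hP _ (a1 l)).hodge E hsE he.1.hodge] at h2
    have h3 : A.lieTrace (fun v => ext (pData A) (z l) (E v)) = 0 := by
      rw [lieTrace_comp A _ E (hP _ (a1 l)).hodge]
      exact (mul_eq_zero.mp h2).resolve_left two_ne_zero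
    exact h3

/-- degree four suffices -/
theorem main : (∀ α : PowForm A 4 (2 * 2), IsGrothendieck _ _ 2 α →
      (∀ e, A.IsSkewEnd e → IsKilledBy A 4 (2 * 2) e α) → IsHodge _ _ 2 α) ↔
    (∀ (n k : ℕ) (α : PowForm A n (2 * k)), IsGrothendieck _ _ k α →
      (∀ z, A.IsHodgeCentral z → IsKilledBy A n (2 * k) z α) → IsHodge _ _ k α) := by
  constructor
  · intro h n k α hα hz
    obtain ⟨m, c, z, h1, h2⟩ := hop_act A h
    refine isHodge_of_comp A α fun s => inF_of_act (hop A) (hop_hop A) _ ?_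
    rw [h2 k _ (isTens_comp A α hα s)]
    refine Finset.sum_eq_zero fun l _ => ?_
    rw [killed_comp A α (z l) (hz _ (h1 l)) s, smul_zero]
  · intro h α hα he
    exact h 4 2 α hα fun z hz => he z hz.1

end Pool.Agent.Helper40.Gpc
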