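import Pool.Agent.Helper7.GQ
import Pool.Agent.Helper7.RF
import Pool.Agent.Helper7.Conseq
import Pool.Agent.Helper7.Generate

/-!
Extension of endomorphisms of the rational structure to complex endomorphisms.
-/

namespace Pool.Agent.Helper40.Gpc

open Module Pool.Agent.Helper7

variable {κ : Type} [Fintype κ] [DecidableEq κ] {ϖ : ℂ} (P : PData κ ϖ)

instance : FiniteDimensional ℚ P.Q := Module.Finite.span_of_finite ℚ (Set.finite_range P.bB)

/-- the rational basis -/
noncomputable def bQ : Basis P.ι ℚ P.Q :=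
  Basis.span (P.bB.linearIndependent.restrict_scalars (by
    intro a b h
    simpa using h))

lemma bQ_apply (i : P.ι) : ((bQ P i : P.Q) : κ → ℂ) = P.bB i :=
  congrArg Subtype.val (Basis.span_apply _ i)

omit [Fintype κ] [DecidableEq κ] in
lemma ratsmul (q : ℚ) (v : κ → ℂ) : q • v = (q : ℂ) • v := by
  rw [← algebraMap_smul ℂ q v]; rfl

/-- the complex extension of a rational endomorphism -/
noncomputable def ext (y : Module.End ℚ P.Q) : Module.End ℂ (κ → ℂ) :=
  P.bB.constr ℂ (fun i => ((y (bQ P i) : P.Q) : κ → ℂ))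

lemma ext_basis (y : Module.End ℚ P.Q) (i : P.ι) :
    ext P y (P.bB i) = ((y (bQ P i) : P.Q) : κ → ℂ) := Basis.constr_basis _ _ _ _

lemma ext_apply (y : Module.End ℚ P.Q) (v : P.Q) : ext P y (v : κ → ℂ) = ((y v : P.Q) : κ → ℂ) := by
  have h1 : v = ∑ i, (bQ P).repr v i • bQ P i := ((bQ P).sum_repr v).symm
  have h2 : (v : κ → ℂ) = ∑ i, (((bQ P).repr v i : ℚ) : ℂ) • P.bB i := by
    conv_lhs => rw [h1]
    rw [AddSubmonoidClass.coe_finsetSum]
    refine Finset.sum_congr rfl fun i _ => ?_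
    rw [Submodule.coe_smul, bQ_apply, ratsmul]
  rw [h2, map_sum]
  conv_rhs => rw [h1, map_sum]
  rw [AddSubmonoidClass.coe_finsetSum]
  refine Finset.sum_congr rfl fun i _ => ?_
  rw [map_smul, map_smul, Submodule.coe_smul, ext_basis, ratsmul]

lemma ext_mem (y : Module.End ℚ P.Q) (v : κ → ℂ) (hv : v ∈ P.Q) : ext P y v ∈ P.Q := by
  have := ext_apply P y ⟨v, hv⟩
  rw [this]
  exact (y ⟨v, hv⟩).2

lemma hom_ext {f g : (κ → ℂ) →ₗ[ℂ] (κ → ℂ)} (h : ∀ v ∈ P.Q, f v = g v) : f = g :=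
  P.bB.ext fun i => h _ (P.basis_mem i)

lemma ext_add (x y : Module.End ℚ P.Q) : ext P (x + y) = ext P x + ext P y := by
  apply hom_ext P
  intro v hv
  rw [LinearMap.add_apply, ext_apply P _ ⟨v, hv⟩, ext_apply P _ ⟨v, hv⟩, ext_apply P _ ⟨v, hv⟩]
  rfl

lemma ext_sub (x y : Module.End ℚ P.Q) : ext P (x - y) = ext P x - ext P y := by
  apply hom_ext P
  intro v hv
  rw [LinearMap.sub_apply, ext_apply P _ ⟨v, hv⟩, ext_apply P _ ⟨v, hv⟩, ext_apply P _ ⟨v, hv⟩]
  rfl

lemma ext_smul (q : ℚ) (x : Module.End ℚ P.Q) : ext P (q • x) = (q : ℂ) • ext P x := by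
  apply hom_ext P
  intro v hv
  rw [LinearMap.smul_apply, ext_apply P _ ⟨v, hv⟩, ext_apply P _ ⟨v, hv⟩, ← ratsmul]
  rfl

lemma ext_mul (x y : Module.End ℚ P.Q) : ext P (x * y) = ext P x * ext P y := by
  apply hom_ext P
  intro v hv
  rw [Module.End.mul_apply, ext_apply P _ ⟨v, hv⟩, ext_apply P _ ⟨v, hv⟩, ext_apply P x]
  rfl

lemma ext_zero : ext P 0 = 0 := by
  apply hom_ext P
  intro v hv
  rw [ext_apply P _ ⟨v, hv⟩]
  rfl

lemma ext_one : ext P 1 = 1 := by
  apply hom_ext P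
  intro v hv
  rw [ext_apply P _ ⟨v, hv⟩]
  rfl

lemma ext_sum {X : Type*} (s : Finset X) (f : X → Module.End ℚ P.Q) :
    ext P (∑ x ∈ s, f x) = ∑ x ∈ s, ext P (f x) := by
  classical
  induction s using Finset.induction_on with
  | empty => rw [Finset.sum_empty, Finset.sum_empty, ext_zero]
  | insert a s ha ih => rw [Finset.sum_insert ha, Finset.sum_insert ha, ext_add, ih]

lemma ext_injective {x y : Module.End ℚ P.Q} (h : ext P x = ext P y) : x = y := by
  ext v
  have h1 := ext_apply P x v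
  rw [h, ext_apply] at h1
  rw [h1]

lemma exists_ext (X : Module.End ℂ (κ → ℂ)) (hX : ∀ v ∈ P.Q, X v ∈ P.Q) :
    ∃ x, X = ext P x := by
  refine ⟨{ toFun := fun v => ⟨X v, hX v v.2⟩
            map_add' := fun u v => Subtype.ext (map_add X _ _)
            map_smul' := fun q v => Subtype.ext (by
              change X ((q • v : P.Q) : κ → ℂ) = q • X v
              rw [Submodule.coe_smul, ratsmul, map_smul, ratsmul]) }, ?_⟩
  apply hom_ext P
  intro v hv
  rw [ext_apply P _ ⟨v, hv⟩]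
  rfl

/-- decomposition of complex endomorphisms into rational ones -/
lemma exists_decomp (X : Module.End ℂ (κ → ℂ)) : ∃ (m : ℕ) (c : Fin m → ℂ)
    (y : Fin m → Module.End ℚ P.Q), LinearIndependent ℚ c ∧ X = ∑ l, c l • ext P (y l) := by
  classical
  obtain ⟨m, c, y, hc, hx⟩ := exists_rat_decomp (X := P.ι × P.ι)
    (fun t => P.bB.repr (X (P.bB t.2)) t.1)
  refine ⟨m, c, fun l => (bQ P).constr ℚ (fun q => ∑ p, y l (p, q) • bQ P p), hc, ?_⟩
  apply P.bB.ext
  intro q
  rw [LinearMap.sum_apply]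
  have h1 : ∀ l, ext P ((bQ P).constr ℚ (fun q => ∑ p, y l (p, q) • bQ P p)) (P.bB q) =
      ∑ p, (y l (p, q) : ℂ) • P.bB p := by
    intro l
    rw [ext_basis, Basis.constr_basis, AddSubmonoidClass.coe_finsetSum]
    refine Finset.sum_congr rfl fun p _ => ?_
    rw [Submodule.coe_smul, bQ_apply, ratsmul]
  simp only [LinearMap.smul_apply, h1, Finset.smul_sum, smul_smul]
  rw [Finset.sum_comm]
  conv_lhs => rw [← P.bB.sum_repr (X (P.bB q))]
  refine Finset.sum_congr rfl fun p _ => ?_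
  rw [← Finset.sum_smul]
  congr 1
  exact hx (p, q)

/-- independence of rational endomorphisms over the complex numbers -/
lemma ext_indep {m : ℕ} (c : Fin m → ℂ) (hc : LinearIndependent ℚ c)
    (y : Fin m → Module.End ℚ P.Q) (h : ∑ l, c l • ext P (y l) = 0) (l : Fin m) : y l = 0 := by
  apply ext_injective P
  rw [ext_zero]
  apply P.bB.ext
  intro i
  rw [LinearMap.zero_apply]
  refine vec_eq_zero_of_indep P.bB c hc (fun l => ext P (y l) (P.bB i))
    (fun l => ext_mem P _ _ (P.basis_mem i)) ?_ l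
  have h1 := congrArg (fun f => f (P.bB i)) h
  simpa only [LinearMap.sum_apply, LinearMap.smul_apply, LinearMap.zero_apply] using h1

/-- traces -/
lemma trace_ext (y : Module.End ℚ P.Q) :
    LinearMap.trace ℂ (κ → ℂ) (ext P y) = ((LinearMap.trace ℚ P.Q y : ℚ) : ℂ) := by
  classical
  rw [LinearMap.trace_eq_matrix_trace ℂ P.bB, LinearMap.trace_eq_matrix_trace ℚ (bQ P),
    Matrix.trace, Matrix.trace]
  push_cast
  refine Finset.sum_congr rfl fun i _ => ?_
  rw [Matrix.diag_apply, Matrix.diag_apply, LinearMap.toMatrix_apply, LinearMap.toMatrix_apply,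
    ext_basis]
  have h1 : ((y (bQ P i) : P.Q) : κ → ℂ) =
      ∑ j, (((bQ P).repr (y (bQ P i)) j : ℚ) : ℂ) • P.bB j := by
    conv_lhs => rw [← (bQ P).sum_repr (y (bQ P i))]
    rw [AddSubmonoidClass.coe_finsetSum]
    refine Finset.sum_congr rfl fun j _ => ?_
    rw [Submodule.coe_smul, bQ_apply, ratsmul]
  rw [h1, map_sum, Finsupp.finsetSum_apply, Finset.sum_eq_single i]
  · rw [map_smul, Basis.repr_self, Finsupp.smul_single, Finsupp.single_eq_same, smul_eq_mul,
      mul_one]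
  · intro j _ hj
    rw [map_smul, Basis.repr_self, Finsupp.smul_single, Finsupp.single_eq_of_ne (Ne.symm hj)]
  · intro h; exact absurd (Finset.mem_univ _) h

end Pool.Agent.Helper40.Gpc
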